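import Mathlib
import Pool.Agent.LGO.CM.Inv
import Pool.Agent.LGO.U.RFld
import Pool.Agent.LGO.U.RInt
import Pool.Agent.LGO.H.BdC

/-!
# LGO/ZV: heights of the roots of polynomials

`bd_monic`: roots of a monic polynomial; `bd_poly`: roots of any polynomial.
-/

namespace Pool.Agent.LGO.ZV

open Polynomial Pool.Agent.Hhelper14.ZPL Pool.Agent.LGO

private theorem Root_norm {d : ℕ} (hd : 0 < d) (c : ℕ → ℂ) (z : ℂ) {H : ℝ}
    (hH : 1 ≤ H) (hc : ∀ j < d, ‖c j‖ ≤ H)
    (h : z ^ d + ∑ j ∈ Finset.range d, c j * z ^ j = 0) : ‖z‖ ≤ d * H := by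
  have hd1 : (1 : ℝ) ≤ d := by exact_mod_cast hd
  rcases le_or_gt ‖z‖ 1 with hz | hz
  · nlinarith
  · have h1 : z ^ d = -∑ j ∈ Finset.range d, c j * z ^ j := by linear_combination h
    have h2 : ‖z‖ ^ d ≤ d * (H * ‖z‖ ^ (d - 1)) := by
      rw [← norm_pow, h1, norm_neg]
      refine (norm_sum_le _ _).trans ?_
      have h3 : ∀ j ∈ Finset.range d, ‖c j * z ^ j‖ ≤ H * ‖z‖ ^ (d - 1) := by
        intro j hj
        rw [Finset.mem_range] at hj
        rw [norm_mul, norm_pow]
        exact mul_le_mul (hc j hj) (pow_le_pow_right₀ hz.le (by omega)) (by positivity) (by linarith)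
      refine (Finset.sum_le_sum h3).trans ?_
      rw [Finset.sum_const, Finset.card_range, nsmul_eq_mul]
    obtain ⟨e, rfl⟩ : ∃ e, d = e + 1 := ⟨d - 1, by omega⟩
    rw [Nat.add_sub_cancel, pow_succ] at h2
    have hzp : 0 < ‖z‖ ^ e := pow_pos (by linarith) _
    refine le_of_mul_le_mul_right ?_ hzp
    nlinarith

/-- roots of a monic polynomial -/
theorem bd_monic {K : IntermediateField ℚ ℂ} {d : ℕ} (hd : 0 < d) {B : ℝ} (hB : 0 ≤ B) (c : ℕ → ℂ)
    {x : ℂ} (hc : ∀ j < d, Bd K B (c j)) (hx : x ∈ K)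
    (h : x ^ d + ∑ j ∈ Finset.range d, c j * x ^ j = 0) : Bd K (d * (1 + B)) x := by
  classical
  have hd1 : (1 : ℝ) ≤ d := by exact_mod_cast hd
  choose! n hn hnB hint using fun j (hj : j < d) => (hc j hj).den
  set m : ℕ := ∏ j ∈ Finset.range d, n j with hm
  have hmpos : 0 < m := Finset.prod_pos fun j hj => hn j (Finset.mem_range.1 hj)
  have hmB : (m : ℝ) ≤ Real.exp (d * B) := by
    rw [hm]
    push_cast
    calc ∏ j ∈ Finset.range d, (n j : ℝ) ≤ ∏ _j ∈ Finset.range d, Real.exp B :=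
          Finset.prod_le_prod (fun _ _ => Nat.cast_nonneg _) fun j hj => hnB j (Finset.mem_range.1 hj)
      _ = Real.exp (d * B) := by rw [Finset.prod_const, Finset.card_range, Real.exp_nat_mul]
  have hmc : ∀ j < d, IsIntegral ℤ ((m : ℂ) * c j) := by
    intro j hj
    have e1 : (m : ℂ) * c j = ((∏ k ∈ (Finset.range d).erase j, n k : ℕ) : ℂ) * ((n j : ℂ) * c j) := by
      have e2 : m = (∏ k ∈ (Finset.range d).erase j, n k) * n j := by
        rw [hm, mul_comm, Finset.mul_prod_erase _ _ (Finset.mem_range.2 hj)]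
      rw [e2]
      push_cast
      ring
    rw [e1]
    exact isIntegral_natCast_mul _ (hint j hj)
  -- the integral polynomial
  set P : ℂ[X] := C (m : ℂ) * X ^ d + ∑ j ∈ Finset.range d, C ((m : ℂ) * c j) * X ^ j with hP
  have hlt : (∑ j ∈ Finset.range d, C ((m : ℂ) * c j) * X ^ j : ℂ[X]).degree < (d : WithBot ℕ) := by
    rw [degree_lt_iff_coeff_zero]
    intro k hk
    rw [finsetSum_coeff]
    refine Finset.sum_eq_zero fun j hj => ?_
    rw [coeff_C_mul_X_pow, if_neg]
    rintro rfl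
    exact absurd (Finset.mem_range.1 hj) (by omega)
  have hm0 : (m : ℂ) ≠ 0 := Nat.cast_ne_zero.2 hmpos.ne'
  have hlead : P.leadingCoeff = m := by
    rw [hP, leadingCoeff_add_of_degree_lt']
    · rw [leadingCoeff_C_mul_X_pow]
    · rw [degree_C_mul_X_pow _ hm0]
      exact hlt
  have hcoef : ∀ i, IsIntegral ℤ (P.coeff i) := by
    intro i
    rw [hP, coeff_add, finsetSum_coeff]
    refine IsIntegral.add ?_ (IsIntegral.sum _ fun j hj => ?_)
    · rw [coeff_C_mul_X_pow]
      split_ifs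
      · exact isIntegral_natCast m
      · exact isIntegral_zero
    · rw [coeff_C_mul_X_pow]
      split_ifs
      · exact hmc j (Finset.mem_range.1 hj)
      · exact isIntegral_zero
  have hroot : P.eval x = 0 := by
    rw [hP, eval_add, eval_finsetSum]
    simp only [eval_mul, eval_C, eval_pow, eval_X]
    have e1 : ∑ j ∈ Finset.range d, (m : ℂ) * c j * x ^ j = m * ∑ j ∈ Finset.range d, c j * x ^ j := by
      rw [Finset.mul_sum]
      refine Finset.sum_congr rfl fun j _ => ?_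
      ring
    rw [e1, ← mul_add, h, mul_zero]
  have h1 := U.RInt_lc P hcoef x hroot
  rw [hlead] at h1
  have hde : (d : ℝ) ≤ Real.exp d := by
    have := Real.add_one_le_exp (d : ℝ)
    linarith
  refine ⟨hx, ⟨m, hmpos, hmB.trans (Real.exp_le_exp.2 (by nlinarith)), h1⟩, fun σ => ?_⟩
  have h2 : (⟨x, hx⟩ : K) ^ d + ∑ j ∈ Finset.range d,
      (if hj : j < d then (⟨c j, (hc j hj).mem⟩ : K) else 0) * (⟨x, hx⟩ : K) ^ j = 0 := by
    apply Subtype.ext
    push_cast
    rw [← h]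
    congr 1
    refine Finset.sum_congr rfl fun j hj => ?_
    rw [dif_pos (Finset.mem_range.1 hj)]
  have h3 := congrArg σ h2
  rw [map_add, map_pow, map_sum, map_zero] at h3
  simp only [map_mul, map_pow] at h3
  have h4 := Root_norm hd (fun j => σ (if hj : j < d then (⟨c j, (hc j hj).mem⟩ : K) else 0))
    (σ ⟨x, hx⟩) (Real.one_le_exp hB) (fun j hj => by
      simp only [dif_pos hj]
      exact (hc j hj).house σ) h3
  refine h4.trans ?_
  calc (d : ℝ) * Real.exp B ≤ Real.exp d * Real.exp B := mul_le_mul_of_nonneg_right hde (Real.exp_pos _).le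
    _ = Real.exp (d + B) := (Real.exp_add _ _).symm
    _ ≤ Real.exp (d * (1 + B)) := Real.exp_le_exp.2 (by nlinarith)

/-- roots of a polynomial -/
theorem bd_poly {K : IntermediateField ℚ ℂ} [FiniteDimensional ℚ K] {d : ℕ} (hd : 0 < d) {B D : ℝ}
    (hD : (Module.finrank ℚ K : ℝ) ≤ D) (hB : 0 ≤ B) (c : ℕ → ℂ) {x : ℂ}
    (hc : ∀ j ≤ d, Bd K B (c j)) (hx : x ∈ K) (hne : c d ≠ 0)
    (h : ∑ j ∈ Finset.range (d + 1), c j * x ^ j = 0) : Bd K (d * (1 + (1 + 2 * D) * B)) x := by
  have hD1 : (1 : ℝ) ≤ D := le_trans (by exact_mod_cast (Module.finrank_pos : 0 < Module.finrank ℚ K)) hD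
  have h1 := Bd.inv hD hB (hc d le_rfl) hne
  have h2 := bd_monic (K := K) hd (B := (1 + 2 * D) * B) (by positivity) (fun j => (c d)⁻¹ * c j) (x := x)
    (fun j hj => (h1.mul (hc j hj.le)).mono (by linarith)) hx (by
      rw [Finset.sum_range_succ] at h
      have e1 : x ^ d = (c d)⁻¹ * (c d * x ^ d) := by rw [inv_mul_cancel_left₀ hne]
      have e2 : ∑ j ∈ Finset.range d, (c d)⁻¹ * c j * x ^ j =
          (c d)⁻¹ * ∑ j ∈ Finset.range d, c j * x ^ j := by
        rw [Finset.mul_sum]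
        refine Finset.sum_congr rfl fun j _ => ?_
        ring
      rw [e2, e1, ← mul_add, add_comm, h, mul_zero])
  exact h2

end Pool.Agent.LGO.ZV
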