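import Mathlib
import Pool.Agent.LGO.ZG.Types
import Pool.Agent.LGO.ZG.Main
import Pool.Agent.LGO.ZV.Hts

/-!
# LGO/ZV: the four types of points on a curve of any genus

As `LGO/ZG/Types.lean`, for any irreducible curve over `Qb` with nonconstant coordinates.  `fin_v`: finiteness from the
heights.  `t1_v`, `t2_v`: finiteness from the heights.  `t3_v`, `t4_v`: no condition (the heights come from the singular
modulus, `CMAll`).
-/

namespace Pool.Agent.LGO.ZV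

open Polynomial UpperHalfPlane Pool.Agent.Hhelper14.ZP Pool.Agent.Hhelper14.ZPL Pool.Agent.LGO
  Pool.Agent.LGO.U Pool.Agent.LGO.ZF Pool.Agent.LGO.ZG Pool.Agent.LGO.PWG

variable {n mm : ℕ} {V : Set (Fin n → ℂ)}

/-- an irreducible curve over `Qb` with nonconstant coordinates, no two of them modular related -/
structure Crv (V : Set (Fin n → ℂ)) : Prop where
  irr : Pool.Agent.Hhelper14.ZPL.IsIrredClosed V
  kcl : KClosed V
  dim : Pool.Agent.Hhelper14.ZPL.dim V = 1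
  nc : ∀ (i : Fin n) (c : ℂ), ∃ x ∈ V, x i ≠ c
  nomod : ∀ a b : Fin n, a ≠ b → ∀ g : GL (Fin 2) ℚ, 0 < g.det.val →
    ∃ x ∈ V, ¬ ∃ τ : ℍ, x a = jInv τ ∧ x b = jInv (gact g τ)

theorem Crv.fib (h : Crv V) (k : Fin n) (c : ℂ) : {x ∈ V | x k = c}.Finite := by
  have hZ : IsZClosed {x : Fin n → ℂ | x k = c} := by
    refine Set.Subset.antisymm ?_ (subset_closure' _)
    intro x hx
    rw [MvPolynomial.mem_zeroLocus_iff] at hx
    have h1 := hx (MvPolynomial.X k - MvPolynomial.C c) (by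
      rw [MvPolynomial.mem_vanishingIdeal_iff]
      intro y hy
      have hy' : y k = c := hy
      simp [hy'])
    have h2 : x k - c = 0 := by simpa using h1
    exact sub_eq_zero.1 h2
  have h1 := finite_inter h.irr h.dim hZ (fun hsub => by
    obtain ⟨x, hx, hne⟩ := h.nc k c
    exact hne (hsub hx))
  exact h1

theorem Crv.fibs (h : Crv V) {mm : ℕ} (hm : 0 < mm) (i : Fin mm → Fin n) (y : Fin mm → ℂ) :
    {x ∈ V | y = fun a => x (i a)}.Finite := by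
  refine (h.fib (i ⟨0, hm⟩) (y ⟨0, hm⟩)).subset ?_
  rintro x ⟨hx, rfl⟩
  exact ⟨hx, rfl⟩

/-- finiteness from the heights -/
theorem fin_v (h : Crv V) (hm : 0 < mm) (i : Fin mm → Fin n) {Q : ℝ → (Fin mm → ℂ) → Prop}
    (hmono : ∀ (H H' : ℝ), H ≤ H' → ∀ x, Q H x → Q H' x)
    (hF : FinAbs Q {y : Fin mm → ℂ | ∃ x ∈ V, y = fun a => x (i a)})
    {T : Set (Fin n → ℂ)} (hTV : T ⊆ V) {E : Set (Fin n → ℂ)} (hE : E.Finite) (C : ℕ)
    (hHB : ∀ x ∈ T, x ∉ E → HB i C x) (hal : ∀ x ∈ T, ∀ a, IsAlgebraic ℚ (x (i a)))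
    (C₂ : ℕ) (hQ : ∀ x ∈ T, x ∉ E → ∀ (K : IntermediateField ℚ ℂ) [FiniteDimensional ℚ K] (M : ℝ),
      2 ≤ M → (Module.finrank ℚ K : ℝ) ≤ M → (∀ k, Bd K M (x k)) → ∀ s : ℂ ≃+* ℂ,
        Q (M ^ C₂) (fun a => s (x (i a)))) : T.Finite := by
  obtain ⟨k₀, hk₀, hs⟩ := stab h.kcl
  set F : ℕ := C + 2 with hFdef
  set G : ℕ := F * (C₂ + 1) with hG
  have h1 : ((fun (x : Fin n → ℂ) (a : Fin mm) => x (i a)) '' (T \ E)).Finite := by
    refine hF k₀ ?_ _ ?_ G ?_ ?_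
    · rintro s hsk y ⟨x, hx, rfl⟩
      exact ⟨_, hs s hsk x hx, rfl⟩
    · rintro _ ⟨x, hx, rfl⟩
      exact ⟨x, hTV hx.1, rfl⟩
    · rintro _ ⟨x, hx, rfl⟩ a
      exact hal x hx.1 a
    · rintro _ ⟨x, ⟨hxT, hxE⟩, rfl⟩ s
      have hfd : FiniteDimensional ℚ (IntermediateField.adjoin ℚ (Set.range fun a => x (i a))) := by
        refine IntermediateField.finiteDimensional_adjoin ?_
        rintro z ⟨a, rfl⟩
        exact (hal x hxT a).isIntegral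
      set K := IntermediateField.adjoin ℚ (Set.range fun a => x (i a)) with hK
      have hmem : ∀ a, x (i a) ∈ K := fun a => IntermediateField.subset_adjoin ℚ _ ⟨a, rfl⟩
      obtain ⟨K', -, hK', h3, h4⟩ := hHB x hxT hxE K hmem
      set D : ℕ := Module.finrank ℚ K with hD
      have hD1 : 1 ≤ D := Module.finrank_pos
      have hD1' : (1 : ℝ) ≤ D := by exact_mod_cast hD1
      set M : ℝ := ((F : ℝ) * D) ^ F with hM
      have hFD : (2 : ℝ) ≤ (F : ℝ) * D := by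
        have : (2 : ℝ) ≤ F := by rw [hFdef]; push_cast; linarith [(Nat.cast_nonneg C : (0 : ℝ) ≤ C)]
        nlinarith
      have hM2 : 2 ≤ M := by
        rw [hM]
        exact hFD.trans (le_self_pow₀ (by linarith) (by omega))
      have hCM : ((C : ℝ) * D) ^ C ≤ M := pw_mono (by omega) hD1
      have hKM : (Module.finrank ℚ K' : ℝ) ≤ M := by
        refine h3.trans ?_
        calc (C : ℝ) * D ≤ F * D := by
              refine mul_le_mul_of_nonneg_right ?_ (by linarith)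
              exact_mod_cast (by omega : C ≤ F)
          _ ≤ M := le_self_pow₀ (by linarith) (by omega)
      have hMC : ∀ j ≤ C₂ + 1, M ^ j ≤ ((G : ℝ) * D) ^ G := by
        intro j hj
        have e1 : M ^ j ≤ ((F : ℝ) * D) ^ G := by
          rw [hM, ← pow_mul]
          exact pow_le_pow_right₀ (by linarith) (Nat.mul_le_mul_left _ hj)
        refine e1.trans (pow_le_pow_left₀ (by linarith) ?_ _)
        refine mul_le_mul_of_nonneg_right ?_ (by linarith)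
        rw [hG]
        exact_mod_cast Nat.le_mul_of_pos_right _ (Nat.succ_pos _)
      refine ⟨hmono _ _ ?_ _ (hQ x hxT hxE K' M hM2 hKM (fun k => (h4 k).mono hCM) s), fun a => ?_⟩
      · have := hMC C₂ (by omega)
        linarith
      · refine ((h4 (i a)).aut s).trans (Real.exp_le_exp.2 ?_)
        have := hMC 1 (by omega)
        rw [pow_one] at this
        linarith
  have h2 : (T \ E).Finite := by
    refine (h1.biUnion (t := fun y => {x ∈ V | y = fun a => x (i a)}) fun y _ => h.fibs hm i y).subset ?_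
    intro x hx
    exact Set.mem_biUnion (Set.mem_image_of_mem _ hx) ⟨hTV hx.1, rfl⟩
  refine (hE.union h2).subset fun x hx => ?_
  by_cases hxE : x ∈ E
  · exact Or.inl hxE
  · exact Or.inr ⟨hx, hxE⟩

/-- the heights if one coordinate is a singular modulus -/
theorem hb_cm_v (h : Crv V) (hC : CMAll) (i : Fin mm → Fin n) (a : Fin mm) :
    ∃ (C : ℕ) (E : Set (Fin n → ℂ)), E.Finite ∧ ∀ x ∈ V, x ∉ E → IsCMVal (x (i a)) → HB i C x := by
  obtain ⟨C₁, E, hE, h1⟩ := hts_v h.irr h.kcl h.dim (i a) (h.nc (i a))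
  obtain ⟨C₂, h2⟩ := hC
  obtain ⟨C₃, hC₃, h3⟩ := pw_absorb C₁ C₂ C₂
  refine ⟨C₁ + C₃, E, hE, ?_⟩
  intro x hx hxE hcm K _ hK
  obtain ⟨K', h4, h5, h6, h7⟩ := h1 x hx hxE K _ (h2 K (x (i a)) (hK a) hcm)
  have hD1 : 1 ≤ Module.finrank ℚ K := Module.finrank_pos
  refine ⟨K', h4, h5, h6.trans ?_, fun k => (h7 k).mono ?_⟩
  · refine mul_le_mul_of_nonneg_right ?_ (Nat.cast_nonneg _)
    exact_mod_cast Nat.le_add_right _ _
  · exact (h3 _ hD1).trans (pw_mono (Nat.le_add_left _ _) hD1)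

private theorem alg_iso_v (h : Crv V) {a b : Fin n} (hab : a ≠ b) {x : Fin n → ℂ} (hx : x ∈ V)
    (hr : HeckeRel (x a) (x b)) (c : Fin n) : IsAlgebraic ℚ (x c) :=
  PW.alg_of_isog h.irr h.kcl h.dim hab (h.nomod _ _ hab) hx (heckeRel_iff.mp hr) c

private theorem pow_both {M : ℝ} (hM : 2 ≤ M) {a b : ℕ} (h : a ≤ b) : M ^ a ≤ M ^ b :=
  pow_le_pow_right₀ (by linarith) h

/-- **type 2** from the heights -/
theorem t2_v (h : Crv V) (i : Fin 4 → Fin n) (hi : Function.Injective i) (C : ℕ)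
    {E : Set (Fin n → ℂ)} (hE : E.Finite)
    (hH : ∀ x ∈ V, x ∉ E → (∀ a, NCM (x (i a))) → HeckeRel (x (i 0)) (x (i 1)) →
      HeckeRel (x (i 2)) (x (i 3)) → HB i C x)
    (hF : FinAbs Q2 {y : Fin 4 → ℂ | ∃ x ∈ V, y = fun a => x (i a)}) :
    {x ∈ V | (∀ a, NCM (x (i a))) ∧ HeckeRel (x (i 0)) (x (i 1)) ∧
      HeckeRel (x (i 2)) (x (i 3))}.Finite := by
  obtain ⟨C₂, hC₂⟩ := iso_q
  refine fin_v h (by omega) i (fun H H' hH x hx => ⟨hx.1.mono hH, hx.2.mono hH⟩) hF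
    (fun x hx => hx.1) hE C (fun x hx hxE => hH x hx.1 hxE hx.2.1 hx.2.2.1 hx.2.2.2) ?_ C₂ ?_
  · intro x hx a
    exact alg_iso_v h (hi.ne (by decide : (0 : Fin 4) ≠ 1)) hx.1 hx.2.2.1 _
  · intro x hx hxE K _ M hM hK hb s
    exact ⟨hC₂ K M _ _ hM hK (hb _) (hb _) (hx.2.1 0) (hx.2.1 1) hx.2.2.1 s,
      hC₂ K M _ _ hM hK (hb _) (hb _) (hx.2.1 2) (hx.2.1 3) hx.2.2.2 s⟩

/-- **type 1** from the heights -/
theorem t1_v (h : Crv V) (i : Fin 3 → Fin n) (hi : Function.Injective i) (C : ℕ)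
    {E : Set (Fin n → ℂ)} (hE : E.Finite)
    (hH : ∀ x ∈ V, x ∉ E → (∀ a, NCM (x (i a))) → HeckeRel (x (i 0)) (x (i 1)) →
      HeckeRel (x (i 0)) (x (i 2)) → HB i C x)
    (hF : FinAbs Q1 {y : Fin 3 → ℂ | ∃ x ∈ V, y = fun a => x (i a)}) :
    {x ∈ V | (∀ a, NCM (x (i a))) ∧ HeckeRel (x (i 0)) (x (i 1)) ∧
      HeckeRel (x (i 0)) (x (i 2))}.Finite := by
  obtain ⟨C₂, hC₂⟩ := iso_q
  refine fin_v h (by omega) i (fun H H' hH x hx a b => (hx a b).mono hH) hF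
    (fun x hx => hx.1) hE C (fun x hx hxE => hH x hx.1 hxE hx.2.1 hx.2.2.1 hx.2.2.2) ?_ C₂ ?_
  · intro x hx a
    exact alg_iso_v h (hi.ne (by decide : (0 : Fin 3) ≠ 1)) hx.1 hx.2.2.1 _
  · intro x hx hxE K _ M hM hK hb s a b
    have hall : ∀ a, HeckeRel (x (i 0)) (x (i a)) := by
      intro a
      fin_cases a
      · exact HeckeRel.refl' _
      · exact hx.2.2.1
      · exact hx.2.2.2
    exact hC₂ K M _ _ hM hK (hb _) (hb _) (hx.2.1 a) (hx.2.1 b)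
      (HeckeRel.trans' (HeckeRel.symm' (hall a)) (hall b)) s

/-- **type 3** -/
theorem t3_v (h : Crv V) (hC : CMAll) (i : Fin 3 → Fin n) (hi : Function.Injective i)
    (hF : FinAbs Q3 {y : Fin 3 → ℂ | ∃ x ∈ V, y = fun a => x (i a)}) :
    {x ∈ V | NCM (x (i 0)) ∧ NCM (x (i 1)) ∧ HeckeRel (x (i 0)) (x (i 1)) ∧
      IsCMVal (x (i 2))}.Finite := by
  obtain ⟨C₂, hC₂⟩ := iso_q
  obtain ⟨C₃, hC₃⟩ := cm_q
  obtain ⟨C, E, hE, h1⟩ := hb_cm_v h hC i 2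
  refine fin_v (E := E ∪ ({x ∈ V | x (i 2) = 0} ∪ {x ∈ V | x (i 2) = 1728})) h (by omega) i
    (fun H H' hH x hx => ⟨hx.1.mono hH, hx.2.mono hH⟩) hF (fun x hx => hx.1)
    (hE.union ((h.fib (i 2) 0).union (h.fib (i 2) 1728))) C
    (fun x hx hxE => h1 x hx.1 (fun h => hxE (Or.inl h)) hx.2.2.2.2) ?_ (C₂ + C₃) ?_
  · intro x hx a
    exact alg_iso_v h (hi.ne (by decide : (0 : Fin 3) ≠ 1)) hx.1 hx.2.2.2.1 _
  · intro x hx hxE K _ M hM hK hb s
    refine ⟨(hC₂ K M _ _ hM hK (hb _) (hb _) hx.2.1 hx.2.2.1 hx.2.2.2.1 s).mono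
      (pow_both hM (by omega)), (hC₃ K M _ hM hK (hb _) ?_ ?_ hx.2.2.2.2 s).mono (pow_both hM (by omega))⟩
    · exact fun h0 => hxE (Or.inr (Or.inl ⟨hx.1, h0⟩))
    · exact fun h0 => hxE (Or.inr (Or.inr ⟨hx.1, h0⟩))

/-- **type 4** -/
theorem t4_v (h : Crv V) (hC : CMAll) (halg : ∀ x : ℂ, IsCMVal x → IsAlgebraic ℚ x)
    (i : Fin 2 → Fin n) (hF : FinAbs Q4 {y : Fin 2 → ℂ | ∃ x ∈ V, y = fun a => x (i a)}) :
    {x ∈ V | IsCMVal (x (i 0)) ∧ IsCMVal (x (i 1))}.Finite := by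
  obtain ⟨C₃, hC₃⟩ := cm_q
  obtain ⟨C, E, hE, h1⟩ := hb_cm_v h hC i 0
  refine fin_v (E := E ∪ (({x ∈ V | x (i 0) = 0} ∪ {x ∈ V | x (i 0) = 1728}) ∪
    ({x ∈ V | x (i 1) = 0} ∪ {x ∈ V | x (i 1) = 1728}))) h (by omega) i
    (fun H H' hH x hx => ⟨hx.1.mono hH, hx.2.mono hH⟩) hF (fun x hx => hx.1)
    (hE.union (((h.fib (i 0) 0).union (h.fib (i 0) 1728)).union
      ((h.fib (i 1) 0).union (h.fib (i 1) 1728)))) C
    (fun x hx hxE => h1 x hx.1 (fun h => hxE (Or.inl h)) hx.2.1) ?_ C₃ ?_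
  · intro x hx a
    fin_cases a
    · exact halg _ hx.2.1
    · exact halg _ hx.2.2
  · intro x hx hxE K _ M hM hK hb s
    refine ⟨hC₃ K M _ hM hK (hb _) ?_ ?_ hx.2.1 s, hC₃ K M _ hM hK (hb _) ?_ ?_ hx.2.2 s⟩
    · exact fun h0 => hxE (Or.inr (Or.inl (Or.inl ⟨hx.1, h0⟩)))
    · exact fun h0 => hxE (Or.inr (Or.inl (Or.inr ⟨hx.1, h0⟩)))
    · exact fun h0 => hxE (Or.inr (Or.inr (Or.inl ⟨hx.1, h0⟩)))
    · exact fun h0 => hxE (Or.inr (Or.inr (Or.inr ⟨hx.1, h0⟩)))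

end Pool.Agent.LGO.ZV
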