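import Mathlib
import Pool.Agent.LGO.ZV.Model
import Pool.Agent.LGO.AXG.IndR
import Pool.Agent.LGO.AXG.ChB
import Pool.Agent.LGO.AXG.ConvG

/-!
# LGO/ZV: the atlas of a curve of any genus

`hasAtlas_v`: the lifts of `m ≥ 2` coordinates of an irreducible curve (not constant, no two of them modular related) are
given by finitely many charts.
-/

namespace Pool.Agent.LGO.ZV

open Polynomial Pool.Agent.LGO Pool.Agent.LGO.AX Pool.Agent.LGO.AXG UpperHalfPlane
  Pool.Agent.Hhelper14.ZP Pool.Agent.Hhelper14.ZPL Metric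
open scoped MatrixGroups

abbrev Cur := Pool.Agent.LGO.AXG.Cur

/-- the zeros on `V` of a polynomial which does not vanish on `V` -/
private theorem ModelN_fin {n : ℕ} {V : Set (Fin n → ℂ)}
    (hV : Pool.Agent.Hhelper14.ZPL.IsIrredClosed V)
    (hdim : Pool.Agent.Hhelper14.ZPL.dim V = 1) {F : MvPolynomial (Fin n) ℂ}
    (hF : ¬ ∀ x ∈ V, MvPolynomial.eval x F = 0) : {x ∈ V | MvPolynomial.eval x F = 0}.Finite := by
  obtain ⟨K, hK, hA, π, -, h0, hfin⟩ := Pool.Agent.ZPB.exists_fun hV hdim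
  exact hfin F fun h => hF ((h0 F).1 h)

private theorem ModelN_fib {n : ℕ} {V : Set (Fin n → ℂ)}
    (hV : Pool.Agent.Hhelper14.ZPL.IsIrredClosed V)
    (hdim : Pool.Agent.Hhelper14.ZPL.dim V = 1) (k : Fin n) (hc : ∀ c : ℂ, ∃ x ∈ V, x k ≠ c)
    (c : ℂ) : {x ∈ V | x k = c}.Finite := by
  have h1 : {x ∈ V | x k = c} =
      {x ∈ V | MvPolynomial.eval x (MvPolynomial.X k - MvPolynomial.C c) = 0} := by
    ext x
    simp only [Set.mem_ofPred_eq, map_sub, MvPolynomial.eval_X, MvPolynomial.eval_C, sub_eq_zero]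
  rw [h1]
  refine ModelN_fin hV hdim fun h => ?_
  obtain ⟨x, hx, hne⟩ := hc c
  have h2 := h x hx
  rw [map_sub, MvPolynomial.eval_X, MvPolynomial.eval_C, sub_eq_zero] at h2
  exact hne h2

private theorem ModelN_inf {n : ℕ} {V : Set (Fin n → ℂ)}
    (hV : Pool.Agent.Hhelper14.ZPL.IsIrredClosed V)
    (hdim : Pool.Agent.Hhelper14.ZPL.dim V = 1) (k : Fin n) (hc : ∀ c : ℂ, ∃ x ∈ V, x k ≠ c) :
    V.Infinite := by
  intro hfin
  obtain ⟨K, hK, hA, π, -, h0, -⟩ := Pool.Agent.ZPB.exists_fun hV hdim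
  have h1 : ∀ x ∈ V, MvPolynomial.eval x (∏ y ∈ hfin.toFinset,
      (MvPolynomial.X k - MvPolynomial.C (y k))) = 0 := by
    intro x hx
    rw [map_prod]
    refine Finset.prod_eq_zero (hfin.mem_toFinset.2 hx) ?_
    rw [map_sub, MvPolynomial.eval_X, MvPolynomial.eval_C, sub_self]
  have h2 := (h0 _).2 h1
  rw [map_prod, Finset.prod_eq_zero_iff] at h2
  obtain ⟨y, -, hy⟩ := h2
  obtain ⟨x, hx, hne⟩ := hc (y k)
  have h3 := (h0 _).1 hy x hx
  rw [map_sub, MvPolynomial.eval_X, MvPolynomial.eval_C, sub_eq_zero] at h3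
  exact hne h3

private theorem ModelN_all {n : ℕ} {V : Set (Fin n → ℂ)}
    (hV : Pool.Agent.Hhelper14.ZPL.IsIrredClosed V)
    (hdim : Pool.Agent.Hhelper14.ZPL.dim V = 1) (k : Fin n) (hc : ∀ c : ℂ, ∃ x ∈ V, x k ≠ c)
    {F : MvPolynomial (Fin n) ℂ} {E : Set (Fin n → ℂ)} (hE : E.Finite)
    (h : ∀ x ∈ V, x ∉ E → MvPolynomial.eval x F = 0) : ∀ x ∈ V, MvPolynomial.eval x F = 0 := by
  by_contra hF
  refine ModelN_inf hV hdim k hc (((ModelN_fin hV hdim hF).union hE).subset ?_)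
  intro x hx
  by_cases h1 : x ∈ E
  · exact Or.inr h1
  · exact Or.inl ⟨hx, h x hx h1⟩

theorem model_NCo_v {n m : ℕ} {V : Set (Fin n → ℂ)} (hV : Pool.Agent.Hhelper14.ZPL.IsIrredClosed V)
    (hdim : Pool.Agent.Hhelper14.ZPL.dim V = 1) {i : Fin m → Fin n}
    (hconst : ∀ a, ∀ c : ℂ, ∃ x ∈ V, x (i a) ≠ c) {S : Cur m} (h : Cov S V i) : S.NCo := by
  intro a c
  by_contra hcon
  push Not at hcon
  obtain ⟨E, hE, hcov⟩ := h
  have h1 : ∀ x ∈ V, MvPolynomial.eval x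
      (MvPolynomial.X (i a) - MvPolynomial.C c : MvPolynomial (Fin n) ℂ) = 0 := by
    refine ModelN_all hV hdim (i a) (hconst a) hE fun x hx hxE => ?_
    obtain ⟨p, hp, hpx⟩ := hcov x hx hxE
    rw [map_sub, MvPolynomial.eval_X, MvPolynomial.eval_C, hpx a, hcon p hp, sub_self]
  obtain ⟨x, hx, hne⟩ := hconst a c
  have h2 := h1 x hx
  rw [map_sub, MvPolynomial.eval_X, MvPolynomial.eval_C, sub_eq_zero] at h2
  exact hne h2

/-- a Hecke correspondence between two coordinates is closed -/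
private theorem ModelN_closed {n : ℕ} {k l : Fin n} (hkl : k ≠ l) {g : GL (Fin 2) ℚ}
    (hg : 0 < g.det.val) : IsZClosed
      {x : Fin n → ℂ | ∃ τ : ℍ, x k = jInv τ ∧ x l = jInv (gact g τ)} := by
  classical
  let κ := Option {m : Fin n // m ≠ k ∧ m ≠ l}
  let block : Fin n → Option κ := fun m =>
    if hm : m ≠ k ∧ m ≠ l then some (some ⟨m, hm⟩) else some none
  let G : Fin n → GL (Fin 2) ℚ := fun m => if m = l then g else 1
  have h1 : {x : Fin n → ℂ | ∃ τ : ℍ, x k = jInv τ ∧ x l = jInv (gact g τ)} =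
      SpSet block G (fun _ => UpperHalfPlane.I) := by
    ext x
    constructor
    · rintro ⟨τ, hk, hl⟩
      choose t ht using fun z => j_surj z
      refine ⟨fun o => o.elim τ (fun m => t (x m.1)), fun m => ?_⟩
      by_cases hm : m ≠ k ∧ m ≠ l
      · have h2 : block m = some (some ⟨m, hm⟩) := dif_pos hm
        have h3 : G m = 1 := if_neg hm.2
        rw [h2, h3]
        simp only [Option.elim_some, gact_one, ht]
      · have h2 : block m = some none := dif_neg hm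
        rw [h2]
        simp only [Option.elim_some, Option.elim_none]
        by_cases hml : m = l
        · have h3 : G m = g := if_pos hml
          rw [h3, hml, hl]
        · have h3 : G m = 1 := if_neg hml
          have h4 : m = k := by
            by_contra h5
            exact hm ⟨h5, hml⟩
          rw [h3, gact_one, h4, hk]
    · rintro ⟨τ, hτ⟩
      refine ⟨τ none, ?_, ?_⟩
      · have h2 := hτ k
        have h3 : block k = some none := dif_neg fun h => h.1 rfl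
        have h4 : G k = 1 := if_neg hkl
        rw [h3, h4] at h2
        simp only [Option.elim_some, gact_one] at h2
        exact h2
      · have h2 := hτ l
        have h3 : block l = some none := dif_neg fun h => h.2 rfl
        have h4 : G l = g := if_pos rfl
        rw [h3, h4] at h2
        simp only [Option.elim_some] at h2
        exact h2
  rw [h1]
  refine spSet_closed (fun b => ?_) fun m => ?_
  · rcases b with _ | m
    · exact ⟨k, dif_neg fun h => h.1 rfl⟩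
    · exact ⟨m.1, dif_pos m.2⟩
  · by_cases hml : m = l
    · have h3 : G m = g := if_pos hml
      rw [h3]
      exact hg
    · have h3 : G m = 1 := if_neg hml
      rw [h3]
      simp

theorem model_NoMod_v {n m : ℕ} {V : Set (Fin n → ℂ)} (hV : Pool.Agent.Hhelper14.ZPL.IsIrredClosed V)
    (hdim : Pool.Agent.Hhelper14.ZPL.dim V = 1) {i : Fin m → Fin n} (a₀ : Fin m)
    (hconst : ∀ c : ℂ, ∃ x ∈ V, x (i a₀) ≠ c)
    (hmod : ∀ a b, a ≠ b → ∀ g : GL (Fin 2) ℚ, 0 < g.det.val →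
      ∃ x ∈ V, ¬ ∃ τ : ℍ, x (i a) = jInv τ ∧ x (i b) = jInv (gact g τ)) {S : Cur m}
    (h : Cov S V i) : S.NoMod := by
  intro a b hab g hg E hcon
  obtain ⟨E₀, hE₀, hcov⟩ := h
  -- different coordinates
  have hi : i a ≠ i b := by
    intro hi
    obtain ⟨x, -, hx⟩ := hmod a b hab 1 (by simp)
    obtain ⟨τ, hτ⟩ := j_surj (x (i a))
    exact hx ⟨τ, hτ.symm, by rw [gact_one, hτ, hi]⟩
  -- the rational matrix
  have hdet : (g.map (Int.castRingHom ℚ)).det = ((g.det : ℤ) : ℚ) := by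
    rw [← RingHom.mapMatrix_apply, ← RingHom.map_det]
    rfl
  have hdet0 : (g.map (Int.castRingHom ℚ)).det ≠ 0 := by
    rw [hdet]
    exact_mod_cast hg.ne'
  let g' : GL (Fin 2) ℚ := Matrix.GeneralLinearGroup.mkOfDetNeZero (g.map (Int.castRingHom ℚ)) hdet0
  have hg' : 0 < g'.det.val := by
    have h1 : g'.det.val = (g.map (Int.castRingHom ℚ)).det := rfl
    rw [h1, hdet]
    exact_mod_cast hg
  have hmz : ∀ τ : ℍ, mz g (τ : ℂ) = ((gact g' τ : ℍ) : ℂ) := by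
    intro τ
    rw [coe_gact hg']
    have h1 : ∀ c d, g'.1 c d = ((g c d : ℤ) : ℚ) := fun c d => rfl
    simp only [h1, mz]
    norm_cast
  -- the exceptional set
  have hfin : (E₀ ∪ ⋃ p ∈ (⋃ T ∈ (E : Set ℂ), {p ∈ S.pt | p.1 = T}),
      {x ∈ V | x (i a₀) = S.x a₀ p}).Finite := by
    refine hE₀.union (Set.Finite.biUnion ?_ fun p _ => ModelN_fib hV hdim (i a₀) hconst _)
    exact (E.finite_toSet).biUnion fun T _ => AX.pt_fiber_finite (S.ax a₀) T
  have hsub : ∀ x ∈ V, x ∉ (E₀ ∪ ⋃ p ∈ (⋃ T ∈ (E : Set ℂ), {p ∈ S.pt | p.1 = T}),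
      {x ∈ V | x (i a₀) = S.x a₀ p}) →
      x ∈ {x : Fin n → ℂ | ∃ τ : ℍ, x (i a) = jInv τ ∧ x (i b) = jInv (gact g' τ)} := by
    intro x hx hxn
    rw [Set.mem_union, not_or] at hxn
    obtain ⟨p, hp, hpx⟩ := hcov x hx hxn.1
    have hpE : p.1 ∉ E := by
      intro hpE
      apply hxn.2
      simp only [Set.mem_iUnion]
      exact ⟨p, ⟨p.1, hpE, hp, rfl⟩, hx, hpx a₀⟩
    obtain ⟨z, hz, h1, h2⟩ := hcon p hp hpE
    refine ⟨⟨z, hz⟩, ?_, ?_⟩
    · rw [hpx a, h1]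
      exact jF_coe ⟨z, hz⟩
    · rw [hpx b, h2]
      have h3 := hmz ⟨z, hz⟩
      rw [show mz g z = mz g ((⟨z, hz⟩ : ℍ) : ℂ) from rfl, h3, jF_coe]
  -- the closed set
  obtain ⟨x, hx, hxn⟩ := hmod a b hab g' hg'
  apply hxn
  have hcl := ModelN_closed hi hg'
  have hx2 : x ∈ MvPolynomial.zeroLocus ℂ (MvPolynomial.vanishingIdeal ℂ
      {x : Fin n → ℂ | ∃ τ : ℍ, x (i a) = jInv τ ∧ x (i b) = jInv (gact g' τ)}) := by
    rw [MvPolynomial.mem_zeroLocus_iff]
    intro F hF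
    rw [MvPolynomial.mem_vanishingIdeal_iff] at hF
    have h1 : ∀ x ∈ V, MvPolynomial.eval x F = 0 := by
      refine ModelN_all hV hdim (i a₀) hconst hfin fun y hy hyn => ?_
      have h2 := hF y (hsub y hy hyn)
      rwa [MvPolynomial.aeval_eq_eval] at h2
    have h3 := h1 x hx
    rw [MvPolynomial.aeval_eq_eval]
    exact h3
  rw [hcl] at hx2
  exact hx2

/-- **the atlas of a curve** -/
theorem hasAtlas_v {n m : ℕ} {V : Set (Fin n → ℂ)} (hV : Pool.Agent.Hhelper14.ZPL.IsIrredClosed V)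
    (hdim : Pool.Agent.Hhelper14.ZPL.dim V = 1) (hm : 0 < m) (i : Fin m → Fin n)
    (hconst : ∀ a, ∀ c : ℂ, ∃ x ∈ V, x (i a) ≠ c)
    (hmod : ∀ a b, a ≠ b → ∀ g : GL (Fin 2) ℚ, 0 < g.det.val →
      ∃ x ∈ V, ¬ ∃ τ : ℍ, x (i a) = jInv τ ∧ x (i b) = jInv (gact g τ)) :
    PWG.HasAtlas {y : Fin m → ℂ | ∃ x ∈ V, y = fun a => x (i a)} := by
  classical
  have a₀ : Fin m := ⟨0, hm⟩
  obtain ⟨S, hS⟩ := exists_model_v hV hdim i a₀ (hconst a₀)
  have hN : S.NCo := model_NCo_v hV hdim hconst hS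
  have hM : S.NoMod := model_NoMod_v hV hdim a₀ (hconst a₀) hmod hS
  obtain ⟨A⟩ := exists_atl S
  obtain ⟨E, hE, hEV⟩ := hS
  have hcen : {p ∈ S.pt | p.1 ∈ A.cen}.Finite := by
    have h1 : {p ∈ S.pt | p.1 ∈ A.cen} ⊆ ⋃ c ∈ A.cen, {p ∈ S.pt | p.1 = c} := by
      rintro p ⟨hp, hpc⟩
      exact Set.mem_biUnion hpc ⟨hp, rfl⟩
    exact (Set.Finite.biUnion A.cen.finite_toSet fun c _ => AX.pt_fiber_finite (S.ax a₀) c).subset h1
  refine convG A (fun β => ind_gen hN hM A β)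
    (F := (fun x a => x (i a)) '' E ∪ (fun p a => S.x a p) '' {p ∈ S.pt | p.1 ∈ A.cen})
    ((hE.image _).union (hcen.image _)) ?_
  rintro y ⟨x, hx, rfl⟩
  by_cases hxE : x ∈ E
  · exact Or.inl (Or.inl ⟨x, hxE, rfl⟩)
  · obtain ⟨p, hp, hpx⟩ := hEV x hx hxE
    by_cases hpc : p.1 ∈ A.cen
    · exact Or.inl (Or.inr ⟨p, ⟨hp, hpc⟩, funext fun a => (hpx a).symm⟩)
    · exact Or.inr ⟨p, hp, hpc, funext hpx⟩

end Pool.Agent.LGO.ZV
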