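import Mathlib
import Pool.Agent.LGO.ZV.Types
import Pool.Agent.LGO.ZV.Atlas
import Pool.Agent.LGO.ZG.AllF

/-!
# LGO/ZV: from the types 1 and 2 to the Zilber-Pink statement, for curves of any genus (MP_d83ecd_ag)

`allFin_v`: the counting input for every curve.  `main_v`: if the points of types `T1` and `T2` are finitely many, then
`FinAtypical V`; the types `T3` and `T4` are proved for every curve.
-/

namespace Pool.Agent.LGO.ZV

open UpperHalfPlane Pool.Agent.Hhelper14.ZP Pool.Agent.Hhelper14.ZPL Pool.Agent.LGO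
  Pool.Agent.LGO.ZF Pool.Agent.LGO.ZG Pool.Agent.LGO.PWG Pool.Agent.ZPE

variable {n : ℕ} {V : Set (Fin n → ℂ)}

/-- the counting input -/
theorem allFin_v (h : Crv V) : AllFin V :=
  allFin_of fun {mm} hmm i hi => hasAtlas_v (m := mm) h.irr h.dim (by omega) i (fun a => h.nc (i a))
    fun a b hab => h.nomod _ _ (hi.ne hab)

/-- **type 3**: an isogenous pair and a singular modulus -/
theorem T3_v (h : Crv V) (hC : CMAll) : T3 V := fun i hi => t3_v h hC i hi ((allFin_v h).f3 i hi)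

/-- **type 4**: two singular moduli -/
theorem T4_v (h : Crv V) (hC : CMAll) (halg : ∀ x : ℂ, IsCMVal x → IsAlgebraic ℚ x) : T4 V :=
  fun i hi => t4_v h hC halg i ((allFin_v h).f4 i hi)

/-- **the Zilber-Pink statement from the types 1 and 2** -/
theorem main_v (hV : Pool.Agent.Hhelper14.ZPL.IsIrredClosed V) (hVk : KClosed V)
    (hdim : Pool.Agent.Hhelper14.ZPL.dim V = 1) (hnc : ∀ (i : Fin n) (c : ℂ), ∃ x ∈ V, x i ≠ c)
    (hC : CMAll) (halg : ∀ x : ℂ, IsCMVal x → IsAlgebraic ℚ x) (h1 : Crv V → T1 V)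
    (h2 : Crv V → T2 V) : FinAtypical V := by
  by_cases hm : NoMod V
  · have h : Crv V := ⟨hV, hVk, hdim, hnc, hm⟩
    exact crit hV hdim (atyp_finite (h1 h) (h2 h) (T3_v h hC) (T4_v h hC halg))
  · simp only [NoMod] at hm
    push Not at hm
    obtain ⟨a, b, hab, g, hg, hx⟩ := hm
    exact fin_of_mod hab g hg hx

/-- in three dimensions -/
theorem main_v3 {V : Set (Fin 3 → ℂ)} (hV : Pool.Agent.Hhelper14.ZPL.IsIrredClosed V)
    (hVk : KClosed V) (hdim : Pool.Agent.Hhelper14.ZPL.dim V = 1)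
    (hnc : ∀ (i : Fin 3) (c : ℂ), ∃ x ∈ V, x i ≠ c)
    (hC : CMAll) (halg : ∀ x : ℂ, IsCMVal x → IsAlgebraic ℚ x)
    (h1 : Crv V → {x ∈ V | (∀ τ : ℍ, jInv τ = x 0 → ¬ IsCM τ) ∧ HeckeRel (x 0) (x 1) ∧
      HeckeRel (x 0) (x 2)}.Finite) : FinAtypical V := by
  refine main_v hV hVk hdim hnc hC halg (fun h => ?_) fun h => ?_
  · intro i hi
    refine (h1 h).subset ?_
    rintro x ⟨hx, h3, h4, h5⟩
    have hsur : Function.Surjective i := Finite.injective_iff_surjective.mp hi
    have hall : ∀ a, HeckeRel (x (i 0)) (x (i a)) := by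
      intro a
      fin_cases a
      · exact HeckeRel.refl' _
      · exact h4
      · exact h5
    have hall' : ∀ a b, HeckeRel (x a) (x b) := by
      intro a b
      obtain ⟨a', rfl⟩ := hsur a
      obtain ⟨b', rfl⟩ := hsur b
      exact HeckeRel.trans' (HeckeRel.symm' (hall a')) (hall b')
    refine ⟨hx, ?_, hall' 0 1, hall' 0 2⟩
    obtain ⟨a', ha'⟩ := hsur 0
    have := h3 a'
    rw [ha', ncm_iff] at this
    intro τ hτ hcm
    exact this ⟨τ, hcm, hτ.symm⟩
  · intro i hi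
    exfalso
    have h3 := Fintype.card_le_of_injective i hi
    simp at h3

end Pool.Agent.LGO.ZV
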