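import Mathlib
import Pool.Agent.LGO.ZV.Main

/-!
# LGO/ZV: the Zilber-Pink statement for curves of any genus, from heights of isogenous pairs

`PairHt V a b`: the pair theorem for the coordinates `a`, `b` of the curve `V`: if `x a` and `x b` are isogenous and not
CM then `x a` has height at most `(C D) ^ C`, outside a finite set.  `main_tied`: it is enough to know this for one pair
in every triple, and for one of two disjoint pairs.
-/

namespace Pool.Agent.LGO.ZV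

open UpperHalfPlane Pool.Agent.Hhelper14.ZP Pool.Agent.Hhelper14.ZPL Pool.Agent.LGO
  Pool.Agent.LGO.ZF Pool.Agent.LGO.ZG Pool.Agent.LGO.PWG Pool.Agent.ZPE

variable {n mm : ℕ} {V : Set (Fin n → ℂ)}

/-- the pair theorem for the coordinates `a`, `b` of `V` -/
def PairHt (V : Set (Fin n → ℂ)) (a b : Fin n) : Prop :=
  ∃ (C : ℕ) (E : Set (Fin n → ℂ)), E.Finite ∧ ∀ x ∈ V, x ∉ E → NCM (x a) → NCM (x b) →
    HeckeRel (x a) (x b) → ∀ (K : IntermediateField ℚ ℂ) [FiniteDimensional ℚ K], x a ∈ K → x b ∈ K →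
      Bd K (((C : ℝ) * Module.finrank ℚ K) ^ C) (x a)

/-- heights of all coordinates -/
theorem hb_of_pair (h : Crv V) (i : Fin mm → Fin n) {a b : Fin mm} (hP : PairHt V (i a) (i b)) :
    ∃ (C : ℕ) (E : Set (Fin n → ℂ)), E.Finite ∧ ∀ x ∈ V, x ∉ E → NCM (x (i a)) → NCM (x (i b)) →
      HeckeRel (x (i a)) (x (i b)) → HB i C x := by
  obtain ⟨C₁, E, hE, h1⟩ := hts_v h.irr h.kcl h.dim (i a) (h.nc (i a))
  obtain ⟨C₂, E₂, hE₂, h2⟩ := hP
  obtain ⟨C₃, hC₃, h3⟩ := pw_absorb C₁ C₂ C₂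
  refine ⟨C₁ + C₃, E ∪ E₂, hE.union hE₂, ?_⟩
  intro x hx hxE ha hb hab K _ hK
  obtain ⟨K', h4, h5, h6, h7⟩ := h1 x hx (fun h => hxE (Or.inl h)) K _
    (h2 x hx (fun h => hxE (Or.inr h)) ha hb hab K (hK a) (hK b))
  have hD1 : 1 ≤ Module.finrank ℚ K := Module.finrank_pos
  refine ⟨K', h4, h5, h6.trans ?_, fun k => (h7 k).mono ?_⟩
  · refine mul_le_mul_of_nonneg_right ?_ (Nat.cast_nonneg _)
    exact_mod_cast Nat.le_add_right _ _
  · exact (h3 _ hD1).trans (pw_mono (Nat.le_add_left _ _) hD1)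

/-- **the Zilber-Pink statement from the pair theorem** -/
theorem main_tied (hV : Pool.Agent.Hhelper14.ZPL.IsIrredClosed V) (hVk : KClosed V)
    (hdim : Pool.Agent.Hhelper14.ZPL.dim V = 1) (hnc : ∀ (i : Fin n) (c : ℂ), ∃ x ∈ V, x i ≠ c)
    (hC : CMAll) (halg : ∀ x : ℂ, IsCMVal x → IsAlgebraic ℚ x)
    (h1 : Crv V → ∀ i : Fin 3 → Fin n, Function.Injective i →
      PairHt V (i 0) (i 1) ∨ PairHt V (i 0) (i 2) ∨ PairHt V (i 1) (i 2))
    (h2 : Crv V → ∀ i : Fin 4 → Fin n, Function.Injective i →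
      PairHt V (i 0) (i 1) ∨ PairHt V (i 2) (i 3)) : FinAtypical V := by
  refine main_v hV hVk hdim hnc hC halg (fun h => ?_) fun h => ?_
  · intro i hi
    have key : ∃ (C : ℕ) (E : Set (Fin n → ℂ)), E.Finite ∧ ∀ x ∈ V, x ∉ E → (∀ a, NCM (x (i a))) →
        HeckeRel (x (i 0)) (x (i 1)) → HeckeRel (x (i 0)) (x (i 2)) → HB i C x := by
      rcases h1 h i hi with h3 | h3 | h3
      · obtain ⟨C, E, hE, h4⟩ := hb_of_pair h i h3
        exact ⟨C, E, hE, fun x hx hxE hn h01 _ => h4 x hx hxE (hn _) (hn _) h01⟩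
      · obtain ⟨C, E, hE, h4⟩ := hb_of_pair h i h3
        exact ⟨C, E, hE, fun x hx hxE hn _ h02 => h4 x hx hxE (hn _) (hn _) h02⟩
      · obtain ⟨C, E, hE, h4⟩ := hb_of_pair h i h3
        exact ⟨C, E, hE, fun x hx hxE hn h01 h02 => h4 x hx hxE (hn _) (hn _)
          (HeckeRel.trans' (HeckeRel.symm' h01) h02)⟩
    obtain ⟨C, E, hE, h5⟩ := key
    exact t1_v h i hi C hE h5 ((allFin_v h).f1 i hi)
  · intro i hi
    have key : ∃ (C : ℕ) (E : Set (Fin n → ℂ)), E.Finite ∧ ∀ x ∈ V, x ∉ E → (∀ a, NCM (x (i a))) →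
        HeckeRel (x (i 0)) (x (i 1)) → HeckeRel (x (i 2)) (x (i 3)) → HB i C x := by
      rcases h2 h i hi with h3 | h3
      · obtain ⟨C, E, hE, h4⟩ := hb_of_pair h i h3
        exact ⟨C, E, hE, fun x hx hxE hn h01 _ => h4 x hx hxE (hn _) (hn _) h01⟩
      · obtain ⟨C, E, hE, h4⟩ := hb_of_pair h i h3
        exact ⟨C, E, hE, fun x hx hxE hn _ h23 => h4 x hx hxE (hn _) (hn _) h23⟩
    obtain ⟨C, E, hE, h5⟩ := key
    exact t2_v h i hi C hE h5 ((allFin_v h).f2 i hi)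

end Pool.Agent.LGO.ZV
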