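import Mathlib
import Pool.Agent.LGO.ZV.Main
import Pool.Agent.LGO.End.F

/-!
# LGO/ZV: the Zilber-Pink statement for curves of any genus in `Y(1)^3` which avoid `(∞, ∞, ∞)`

`flag_v`: `fin_flag` gives the isogenous triples, `main_v3` everything else.
-/

namespace Pool.Agent.LGO.ZV

open MvPolynomial UpperHalfPlane Pool.Agent.Hhelper14.ZP Pool.Agent.Hhelper14.ZPL Pool.Agent.LGO
  Pool.Agent.LGO.ZG Pool.Agent.ZPE

theorem flag_v {V : Set (Fin 3 → ℂ)} (hV : Pool.Agent.Hhelper14.ZPL.IsIrredClosed V)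
    (hVk : KClosed V) (hdim : Pool.Agent.Hhelper14.ZPL.dim V = 1)
    (hnc : ∀ (i : Fin 3) (c : ℂ), ∃ x ∈ V, x i ≠ c)
    (hC : CMAll) (halg : ∀ x : ℂ, IsCMVal x → IsAlgebraic ℚ x)
    {Q : MvPolynomial (Fin 3) ℂ} (hQ0 : constantCoeff Q ≠ 0)
    (hQ : ∀ x ∈ V, (∀ a, x a ≠ 0) → eval (fun a => (x a)⁻¹) Q = 0)
    (h : (∃ k₁ k₂ : Fin 3, k₁ ≠ k₂ ∧ TwoInf V id k₁ ∧ TwoInf V id k₂) ∨ TwoInfRes V id ∨
      OneInfRes V id ∨ U.Rat V id) : FinAtypical V :=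
  main_v3 hV hVk hdim hnc hC halg fun hc =>
    fin_flag hV hVk hdim id hnc hc.nomod hQ0 hQ h

end Pool.Agent.LGO.ZV
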