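import Mathlib
import Pool.Agent.LGO.ZV.Tied
import Pool.Agent.LGO.ZV.Flag
import Pool.Agent.LGO.ZG.Hts
import Pool.Agent.LGO.ZG.InP
import Pool.Agent.LGO.ZG.InC
import Pool.Agent.LGO.PA.QInt
import Pool.Agent.LGO.End.RatC

/-!
# LGO/ZV: two coordinates which are rational functions of one parameter

The curve `V` has any genus.  `pairHt_rat`: if on `V` the coordinates `x a`, `x b` are, up to finitely many points,
rational functions of one parameter which are not similar, then `PairHt V a b` (or `PairHt V b a`).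
-/

namespace Pool.Agent.LGO.ZV

open Polynomial UpperHalfPlane Pool.Agent.Hhelper14.ZP Pool.Agent.Hhelper14.ZPL Pool.Agent.LGO
  Pool.Agent.LGO.U Pool.Agent.LGO.ZF Pool.Agent.LGO.ZG Pool.Agent.LGO.PWG Pool.Agent.ZPE

variable {n : ℕ} {V : Set (Fin n → ℂ)}

/-- the heights of the points with two isogenous coordinates, in terms of the parameter -/
def HtsPar (A B : Fin 2 → Polynomial Qb) (a b : Fin 2) : Prop :=
  ∃ (C : ℕ) (T : Set ℂ), T.Finite ∧ ∀ (t : ℂ) (x : Fin 2 → ℂ), t ∉ T →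
    (∀ k, (aeval t (B k) : ℂ) ≠ 0 ∧ (aeval t (A k) : ℂ) = x k * aeval t (B k)) →
    NCM (x b) → (∃ N, 0 < N ∧ IsogDeg N (x b) (x a)) →
    ∀ (K : IntermediateField ℚ ℂ) [FiniteDimensional ℚ K], x a ∈ K →
      ∃ K' : IntermediateField ℚ ℂ, K ≤ K' ∧ FiniteDimensional ℚ K' ∧
        (Module.finrank ℚ K' : ℝ) ≤ C * Module.finrank ℚ K ∧
        ∀ k, Bd K' (((C : ℝ) * Module.finrank ℚ K) ^ C) (x k)

/-- the coordinates `c 0`, `c 1` of `V` are rational functions of one parameter -/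
def ParOn (V : Set (Fin n → ℂ)) (c : Fin 2 → Fin n) (A B : Fin 2 → Polynomial Qb) : Prop :=
  ∃ E : Set (Fin n → ℂ), E.Finite ∧ ∀ x ∈ V, x ∉ E → ∃ t : ℂ, ∀ k,
    (aeval t (B k) : ℂ) ≠ 0 ∧ (aeval t (A k) : ℂ) = x (c k) * aeval t (B k)

theorem Crv.inf (h : Crv V) (k : Fin n) : V.Infinite := by
  intro hfin
  obtain ⟨K, hK, hA, π, -, h0, -⟩ := Pool.Agent.ZPB.exists_fun h.irr h.dim
  have h1 : ∀ x ∈ V, MvPolynomial.eval x (∏ y ∈ hfin.toFinset,
      (MvPolynomial.X k - MvPolynomial.C (y k))) = 0 := by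
    intro x hx
    rw [map_prod]
    refine Finset.prod_eq_zero (hfin.mem_toFinset.2 hx) ?_
    rw [map_sub, MvPolynomial.eval_X, MvPolynomial.eval_C, sub_self]
  have h2 := (h0 _).2 h1
  rw [map_prod, Finset.prod_eq_zero_iff] at h2
  obtain ⟨y, -, hy⟩ := h2
  obtain ⟨x, hx, hne⟩ := h.nc k (y k)
  have h3 := (h0 _).1 hy x hx
  rw [map_sub, MvPolynomial.eval_X, MvPolynomial.eval_C, sub_eq_zero] at h3
  exact hne h3

/-- from the parameter to the curve -/
theorem pairHt_par (h : Crv V) {c : Fin 2 → Fin n} {A B : Fin 2 → Polynomial Qb}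
    (hpar : ParOn V c A B) {a b : Fin 2} (hH : HtsPar A B a b) : PairHt V (c a) (c b) := by
  classical
  obtain ⟨E, hE, h1⟩ := hpar
  obtain ⟨C, T, hT, h2⟩ := hH
  refine ⟨C, E ∪ ⋃ t ∈ T, {x ∈ V | x (c a) = (aeval t (A a) : ℂ) / aeval t (B a)},
    hE.union (hT.biUnion fun t _ => h.fib _ _), ?_⟩
  intro x hx hxE ha hb hab K _ hKa hKb
  obtain ⟨t, ht⟩ := h1 x hx fun hxE' => hxE (Or.inl hxE')
  have htT : t ∉ T := by
    intro htT
    refine hxE (Or.inr (Set.mem_biUnion htT ⟨hx, ?_⟩))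
    rw [(ht a).2, mul_div_cancel_right₀ _ (ht a).1]
  obtain ⟨K', hKK', hfd, -, hB⟩ := h2 t (fun k => x (c k)) htT ht hb
    (heckeRel_iff.mp (HeckeRel.symm' hab)) K hKa
  exact PA.bd_down (hB a) hKa

/-- the functions are not constant -/
theorem rat0_of_par (h : Crv V) {c : Fin 2 → Fin n} {A B : Fin 2 → Polynomial Qb}
    (hpar : ParOn V c A B) (hB : ∀ k, B k ≠ 0) (hcop : ∀ k, IsCoprime (A k) (B k)) : Rat0 A B := by
  refine ⟨hB, hcop, fun k => ?_⟩
  by_contra hk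
  have hk0 : max (A k).natDegree (B k).natDegree = 0 := by omega
  obtain ⟨E, hE, h1⟩ := hpar
  have hA : (A k).natDegree = 0 := by
    have := le_max_left (A k).natDegree (B k).natDegree
    omega
  have hBk : (B k).natDegree = 0 := by
    have := le_max_right (A k).natDegree (B k).natDegree
    omega
  obtain ⟨α, hα⟩ := natDegree_eq_zero.1 hA
  obtain ⟨β, hβ⟩ := natDegree_eq_zero.1 hBk
  refine h.inf (c k) ((hE.union (h.fib (c k) ((α : ℂ) / (β : ℂ)))).subset ?_)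
  intro x hx
  by_cases hxE : x ∈ E
  · exact Or.inl hxE
  · refine Or.inr ⟨hx, ?_⟩
    obtain ⟨t, ht⟩ := h1 x hx hxE
    obtain ⟨h3, h4⟩ := ht k
    rw [← hβ, aeval_C] at h3
    rw [← hα, ← hβ, aeval_C, aeval_C] at h4
    have h5 : (β : ℂ) ≠ 0 := h3
    have h6 : (α : ℂ) = x (c k) * (β : ℂ) := h4
    rw [h6, mul_div_cancel_right₀ _ h5]

/-- two coordinates which are rational functions of one parameter, not similar -/
theorem pairHt_rat (h : Crv V) {c : Fin 2 → Fin n} {A B : Fin 2 → Polynomial Qb}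
    (hpar : ParOn V c A B) (hB : ∀ k, B k ≠ 0) (hcop : ∀ k, IsCoprime (A k) (B k))
    (hs : ¬ Sim A B 0 1) : PairHt V (c 0) (c 1) ∨ PairHt V (c 1) (c 0) := by
  have h0 := rat0_of_par h hpar hB hcop
  rcases oneQ_of_not_sim h0 hs with h1 | h1
  · exact Or.inl (pairHt_par h hpar (hts_pair h0 pairAll h1))
  · exact Or.inr (pairHt_par h hpar (hts_pair h0 pairAll h1))

end Pool.Agent.LGO.ZV
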