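import Mathlib
import Pool.Agent.LGO.ZV.RatPr

/-!
# LGO/ZV: curves of any genus in `Y(1)^3` two coordinates of which are rational functions of one parameter
-/

namespace Pool.Agent.LGO.ZV

open Polynomial UpperHalfPlane Pool.Agent.Hhelper14.ZP Pool.Agent.Hhelper14.ZPL Pool.Agent.LGO
  Pool.Agent.LGO.U Pool.Agent.LGO.ZF Pool.Agent.LGO.ZG Pool.Agent.LGO.PWG Pool.Agent.ZPE

variable {n : ℕ} {V : Set (Fin n → ℂ)}

theorem PairHt.symm (h : Crv V) {a b : Fin n} (hP : PairHt V a b) : PairHt V b a := by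
  obtain ⟨C₁, E, hE, h1⟩ := hts_v h.irr h.kcl h.dim a (h.nc a)
  obtain ⟨C₂, E₂, hE₂, h2⟩ := hP
  obtain ⟨C₃, hC₃, h3⟩ := pw_absorb C₁ C₂ C₂
  refine ⟨C₃, E ∪ E₂, hE.union hE₂, ?_⟩
  intro x hx hxE hb ha hba K _ hKb hKa
  obtain ⟨K', h4, h5, h6, h7⟩ := h1 x hx (fun h => hxE (Or.inl h)) K _
    (h2 x hx (fun h => hxE (Or.inr h)) ha hb (HeckeRel.symm' hba) K hKa hKb)
  exact (PA.bd_down (h7 b) hKb).mono (h3 _ Module.finrank_pos)

theorem PairHt.any {a : Fin n} (hP : PairHt V a a) (b : Fin n) : PairHt V a b := by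
  obtain ⟨C, E, hE, h⟩ := hP
  exact ⟨C, E, hE, fun x hx hxE ha _ _ K _ hKa _ => h x hx hxE ha ha (HeckeRel.refl' _) K hKa hKa⟩

theorem three (h : Crv V) {i : Fin 3 → Fin n} {a b : Fin 3} (hP : PairHt V (i a) (i b)) :
    PairHt V (i 0) (i 1) ∨ PairHt V (i 0) (i 2) ∨ PairHt V (i 1) (i 2) := by
  fin_cases a <;> fin_cases b
  · exact Or.inl (hP.any _)
  · exact Or.inl hP
  · exact Or.inr (Or.inl hP)
  · exact Or.inl (hP.symm h)
  · exact Or.inr (Or.inr (hP.any _))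
  · exact Or.inr (Or.inr hP)
  · exact Or.inr (Or.inl (hP.symm h))
  · exact Or.inr (Or.inr (hP.symm h))
  · exact Or.inr (Or.inl ((hP.any (i 0)).symm h))

/-- a pair theorem for one pair of coordinates is enough in dimension three -/
theorem main_pair3 {V : Set (Fin 3 → ℂ)} (hV : Pool.Agent.Hhelper14.ZPL.IsIrredClosed V)
    (hVk : KClosed V) (hdim : Pool.Agent.Hhelper14.ZPL.dim V = 1)
    (hnc : ∀ (i : Fin 3) (c : ℂ), ∃ x ∈ V, x i ≠ c)
    (h1 : Crv V → ∃ a b : Fin 3, PairHt V a b) : FinAtypical V := by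
  refine main_tied hV hVk hdim hnc ZG.cmAll (fun _ => ZG.cm_alg) (fun h i hi => ?_) fun h i hi => ?_
  · obtain ⟨a, b, hab⟩ := h1 h
    have hsur : Function.Surjective i := Finite.injective_iff_surjective.mp hi
    obtain ⟨a', rfl⟩ := hsur a
    obtain ⟨b', rfl⟩ := hsur b
    exact three h hab
  · exfalso
    have h3 := Fintype.card_le_of_injective i hi
    simp at h3

/-- curves of any genus two coordinates of which are rational functions of one parameter -/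
theorem ratTwo_y3 {V : Set (Fin 3 → ℂ)} (hV : Pool.Agent.Hhelper14.ZPL.IsIrredClosed V)
    (hVk : KClosed V) (hdim : Pool.Agent.Hhelper14.ZPL.dim V = 1)
    (hnc : ∀ (i : Fin 3) (c : ℂ), ∃ x ∈ V, x i ≠ c) (hr : RatTwo V id) : FinAtypical V := by
  refine main_pair3 hV hVk hdim hnc fun h => ?_
  obtain ⟨a, b, Aa, Ba, Ab, Bb, E, hE, ⟨hAa, hBa, hca, hBa0⟩, ⟨hAb, hBb, hcb, hBb0⟩, hs, hx⟩ := hr
  obtain ⟨Aa, rfl⟩ := hAa.lift
  obtain ⟨Ba, rfl⟩ := hBa.lift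
  obtain ⟨Ab, rfl⟩ := hAb.lift
  obtain ⟨Bb, rfl⟩ := hBb.lift
  rw [isCoprime_map] at hca hcb
  have hBa1 : Ba ≠ 0 := by
    rintro rfl
    exact hBa0 (Polynomial.map_zero _)
  have hBb1 : Bb ≠ 0 := by
    rintro rfl
    exact hBb0 (Polynomial.map_zero _)
  have hpar : ParOn V ![a, b] ![Aa, Ab] ![Ba, Bb] := by
    refine ⟨E, hE, fun x hxV hxE => ?_⟩
    obtain ⟨t, ⟨h1, h2⟩, h3, h4⟩ := hx x hxV hxE
    refine ⟨t, fun k => ?_⟩
    fin_cases k
    · change (aeval t Ba : ℂ) ≠ 0 ∧ (aeval t Aa : ℂ) = x a * aeval t Ba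
      rw [aeval_map_Qb, aeval_map_Qb]
      exact ⟨h1, h2.symm⟩
    · change (aeval t Bb : ℂ) ≠ 0 ∧ (aeval t Ab : ℂ) = x b * aeval t Bb
      rw [aeval_map_Qb, aeval_map_Qb]
      exact ⟨h3, h4.symm⟩
  have hB : ∀ k, ![Ba, Bb] k ≠ 0 := by
    intro k
    fin_cases k
    · exact hBa1
    · exact hBb1
  have hcop : ∀ k, IsCoprime (![Aa, Ab] k) (![Ba, Bb] k) := by
    intro k
    fin_cases k
    · exact hca
    · exact hcb
  have hsim : ¬ Sim ![Aa, Ab] ![Ba, Bb] 0 1 := by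
    rintro ⟨h1, h2, h3⟩
    apply hs
    have key : ∀ P P' : Polynomial Qb, P ≠ 0 → (∀ z : Qb, P.eval z = 0 → P'.eval z = 0) →
        ∀ z : ℂ, (P.map (algebraMap Qb ℂ)).eval z = 0 → (P'.map (algebraMap Qb ℂ)).eval z = 0 := by
      intro P P' hP0 hP z hz
      have hz1 : IsAlgebraic Qb z := by
        refine ⟨P, hP0, ?_⟩
        rw [aeval_map_Qb]
        exact hz
      have hz2 : IsAlgebraic ℚ z := by
        have : Algebra.IsAlgebraic ℚ Qb := algebraicClosure.isAlgebraic ℚ ℂ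
        exact IsAlgebraic.restrictScalars ℚ hz1
      set w : Qb := ⟨z, (mem_algebraicClosure_iff).mpr hz2⟩ with hw
      have hwz : algebraMap Qb ℂ w = z := rfl
      have e : ∀ R : Polynomial Qb, (R.map (algebraMap Qb ℂ)).eval z = algebraMap Qb ℂ (R.eval w) := by
        intro R
        rw [← hwz, eval_map, eval₂_at_apply]
      rw [e] at hz ⊢
      rw [map_eq_zero] at hz
      rw [hP w hz, map_zero]
    refine ⟨fun z => ⟨key _ _ hBa1 (fun z hz => (h2 z).mp hz) z, key _ _ hBb1 (fun z hz => (h2 z).mpr hz) z⟩, ?_, ?_⟩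
    · rw [natDegree_map_Qb, natDegree_map_Qb, natDegree_map_Qb, natDegree_map_Qb]
      exact h3
    · rw [natDegree_map_Qb, natDegree_map_Qb, natDegree_map_Qb, natDegree_map_Qb]
      exact h1
  rcases pairHt_rat h hpar hB hcop hsim with h1 | h1
  · exact ⟨_, _, h1⟩
  · exact ⟨_, _, h1⟩

end Pool.Agent.LGO.ZV
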