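import Mathlib
import Pool.Agent.LGO.ZV.RatY3
import Pool.Agent.LGO.ZH.Final

/-!
# LGO/ZV: a rational projection to a coordinate plane, no condition on the degrees and the poles

`pairHt_all`: if on the curve `V` (any genus) the coordinates `a ≠ b` are, up to finitely many points, rational functions
of one parameter, then `PairHt V a b` (Theorem S and `PA_main`).
-/

namespace Pool.Agent.LGO

open Polynomial

/-- the coordinates `a` and `b` are on `V`, up to finitely many points, rational functions of one parameter with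
algebraic coefficients -/
def RatPlane {n : ℕ} (V : Set (Fin n → ℂ)) (a b : Fin n) : Prop :=
  ∃ (A B A' B' : ℂ[X]) (E : Set (Fin n → ℂ)), E.Finite ∧ RFun A B ∧ RFun A' B' ∧
    ∀ x ∈ V, x ∉ E → ∃ t : ℂ, ValAt A B t (x a) ∧ ValAt A' B' t (x b)

namespace ZV

open Polynomial UpperHalfPlane Pool.Agent.Hhelper14.ZP Pool.Agent.Hhelper14.ZPL Pool.Agent.LGO
  Pool.Agent.LGO.U Pool.Agent.LGO.ZF Pool.Agent.LGO.ZG Pool.Agent.LGO.PWG Pool.Agent.ZPE

variable {n : ℕ} {V : Set (Fin n → ℂ)}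

/-- the points of `V` on a modular correspondence -/
theorem Crv.mr_fin (h : Crv V) {a b : Fin n} (hab : a ≠ b) {g : GL (Fin 2) ℚ} (hg : 0 < g.det.val) :
    {x ∈ V | ∃ τ : ℍ, x a = jInv τ ∧ x b = jInv (gact g τ)}.Finite := by
  refine finite_inter h.irr h.dim (special_closed (mr_special hab hg)) fun hsub => ?_
  obtain ⟨x, hx, hnot⟩ := h.nomod a b hab g hg
  exact hnot (hsub hx)

theorem nomod_par (h : Crv V) {c : Fin 2 → Fin n} (hc : Function.Injective c)
    {A B : Fin 2 → Polynomial Qb} (hpar : ParOn V c A B) : NoMod (curve A B) := by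
  intro a b hab g hg
  obtain ⟨E, hE, h1⟩ := hpar
  obtain ⟨x, hx⟩ := ((h.inf (c a)).diff (hE.union (h.mr_fin (hc.ne hab) hg))).nonempty
  obtain ⟨hxV, hxE⟩ := hx
  rw [Set.mem_union, not_or] at hxE
  obtain ⟨t, ht⟩ := h1 x hxV hxE.1
  refine ⟨fun k => x (c k), ?_, fun hcon => hxE.2 ⟨hxV, hcon⟩⟩
  refine subset_closure' _ ⟨t, fun k => ⟨(ht k).1, ?_⟩⟩
  rw [(ht k).2, mul_div_cancel_right₀ _ (ht k).1]

/-- two coordinates which are rational functions of one parameter -/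
theorem pairHt_all (h : Crv V) {a b : Fin n} (hab : a ≠ b) (hr : RatPlane V a b) :
    PairHt V a b := by
  obtain ⟨Aa, Ba, Ab, Bb, E, hE, ⟨hAa, hBa, hca, hBa0⟩, ⟨hAb, hBb, hcb, hBb0⟩, hx⟩ := hr
  obtain ⟨Aa, rfl⟩ := hAa.lift
  obtain ⟨Ba, rfl⟩ := hBa.lift
  obtain ⟨Ab, rfl⟩ := hAb.lift
  obtain ⟨Bb, rfl⟩ := hBb.lift
  rw [isCoprime_map] at hca hcb
  have hBa1 : Ba ≠ 0 := by
    rintro rfl
    exact hBa0 (Polynomial.map_zero _)
  have hBb1 : Bb ≠ 0 := by
    rintro rfl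
    exact hBb0 (Polynomial.map_zero _)
  have hpar : ParOn V ![a, b] ![Aa, Ab] ![Ba, Bb] := by
    refine ⟨E, hE, fun x hxV hxE => ?_⟩
    obtain ⟨t, ⟨h1, h2⟩, h3, h4⟩ := hx x hxV hxE
    refine ⟨t, fun k => ?_⟩
    fin_cases k
    · change (aeval t Ba : ℂ) ≠ 0 ∧ (aeval t Aa : ℂ) = x a * aeval t Ba
      rw [aeval_map_Qb, aeval_map_Qb]
      exact ⟨h1, h2.symm⟩
    · change (aeval t Bb : ℂ) ≠ 0 ∧ (aeval t Ab : ℂ) = x b * aeval t Bb
      rw [aeval_map_Qb, aeval_map_Qb]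
      exact ⟨h3, h4.symm⟩
  have hB : ∀ k, ![Ba, Bb] k ≠ 0 := by
    intro k
    fin_cases k
    · exact hBa1
    · exact hBb1
  have hcop : ∀ k, IsCoprime (![Aa, Ab] k) (![Ba, Bb] k) := by
    intro k
    fin_cases k
    · exact hca
    · exact hcb
  have hc : Function.Injective ![a, b] := by
    intro k l hkl
    fin_cases k <;> fin_cases l <;> simp_all [eq_comm]
  have h0 := rat0_of_par h hpar hB hcop
  have hm := nomod_par h hc hpar
  exact pairHt_par h hpar (ZH.hts_all h0 pairAll ZH.pairS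
    (ZH.nomd_of h0 hm (by decide : (0 : Fin 2) ≠ 1)))

/-- curves of any genus with a rational projection to a coordinate plane -/
theorem plane_y3 {V : Set (Fin 3 → ℂ)} (hV : Pool.Agent.Hhelper14.ZPL.IsIrredClosed V)
    (hVk : KClosed V) (hdim : Pool.Agent.Hhelper14.ZPL.dim V = 1)
    (hnc : ∀ (i : Fin 3) (c : ℂ), ∃ x ∈ V, x i ≠ c) {a b : Fin 3} (hab : a ≠ b)
    (hr : RatPlane V a b) : FinAtypical V :=
  main_pair3 hV hVk hdim hnc fun h => ⟨a, b, pairHt_all h hab hr⟩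

end ZV

end Pool.Agent.LGO
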