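import Mathlib
import Pool.Agent.LGO.ZV.Main

/-!
# LGO/ZV: the Zilber-Pink statement for special subvarieties of small dimension (helper94's note 3121)

`V` an irreducible curve of any genus with nonconstant coordinates.  A special subvariety `Z` with `k dim Z < n` has a
singular modulus among its coordinates or a block of more than `k` isogenous coordinates.  The first case is settled
by the types `T3`, `T4` (every curve), so only the finiteness of the points with `k + 1` isogenous coordinates is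
needed.  `low_v`: finiteness of the points of `V` on these `Z`; `low_main`: the form of `FinAtypical`.
-/

namespace Pool.Agent.LGO.ZV

open UpperHalfPlane Pool.Agent.Hhelper14.ZP Pool.Agent.Hhelper14.ZPL Pool.Agent.LGO
  Pool.Agent.LGO.ZF Pool.Agent.LGO.ZG Pool.Agent.LGO.PWG Pool.Agent.ZPE

variable {n : ℕ} {V : Set (Fin n → ℂ)}

private theorem inj2 {n : ℕ} {i j : Fin n} (hij : i ≠ j) : Function.Injective ![i, j] := by
  intro a b hab
  fin_cases a <;> fin_cases b <;> simp_all [eq_comm]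

private theorem inj3 {n : ℕ} {i j k : Fin n} (hij : i ≠ j) (hik : i ≠ k) (hjk : j ≠ k) :
    Function.Injective ![i, j, k] := by
  have hij' := hij.symm
  have hik' := hik.symm
  have hjk' := hjk.symm
  intro a b hab
  fin_cases a <;> fin_cases b <;> simp_all

/-- the points on a special subvariety of dimension `< n / k` -/
theorem typ_low {k : ℕ} (hk : 2 ≤ k) (hn : 2 ≤ n) {Z : Set (Fin n → ℂ)}
    (hZ : Pool.Agent.Hhelper14.ZPL.IsSpecial Z)
    (hd : (k : WithBot ℕ∞) * Pool.Agent.Hhelper14.ZPL.dim Z < n) {x : Fin n → ℂ} (hx : x ∈ Z) :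
    (∃ i : Fin (k + 1) → Fin n, Function.Injective i ∧ (∀ a, NCM (x (i a))) ∧
      ∀ a b, HeckeRel (x (i a)) (x (i b))) ∨
    (∃ i : Fin 3 → Fin n, Function.Injective i ∧ NCM (x (i 0)) ∧ NCM (x (i 1)) ∧
      HeckeRel (x (i 0)) (x (i 1)) ∧ IsCMVal (x (i 2))) ∨
    (∃ i : Fin 2 → Fin n, Function.Injective i ∧ IsCMVal (x (i 0)) ∧ IsCMVal (x (i 1))) := by
  classical
  obtain ⟨r, block, g, s, hb, hg, hs, rfl⟩ := isSpecial_iff.mp hZ
  have hr : k * r < n := by
    rw [dim_spSet hb hg, Fintype.card_fin] at hd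
    exact_mod_cast hd
  have hr2 : r + 2 ≤ n := by
    rcases Nat.eq_zero_or_pos r with h0 | h0
    · omega
    · have : 2 * r ≤ k * r := Nat.mul_le_mul_right _ hk
      omega
  by_cases hc : ∃ c, IsCMVal (x c)
  · obtain ⟨c, hc⟩ := hc
    refine Or.inr ?_
    by_cases hc2 : ∃ d, d ≠ c ∧ IsCMVal (x d)
    · obtain ⟨d, hdc, hd'⟩ := hc2
      exact Or.inr ⟨![c, d], inj2 hdc.symm, hc, hd'⟩
    · push Not at hc2
      refine Or.inl ?_
      have hsome : ∀ d : {d : Fin n // d ≠ c}, ∃ b, block d.1 = some b := by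
        intro d
        rcases hbd : block d.1 with _ | b
        · exact absurd (ZPR.Types_cm hs hx hbd) (hc2 d.1 d.2)
        · exact ⟨b, rfl⟩
      choose f hf using hsome
      have hcard : Fintype.card (Fin r) < Fintype.card {d : Fin n // d ≠ c} := by
        simp only [Fintype.card_fin, ne_eq, Fintype.card_subtype_compl, Fintype.card_unique]
        omega
      obtain ⟨d, e, hde, hfde⟩ := Fintype.exists_ne_map_eq_of_card_lt f hcard
      have hne : d.1 ≠ e.1 := fun h => hde (Subtype.ext h)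
      refine ⟨![d.1, e.1, c], inj3 hne d.2 e.2, ncm_iff.mpr (hc2 d.1 d.2),
        ncm_iff.mpr (hc2 e.1 e.2), ?_, hc⟩
      have h1 := hf e
      rw [← hfde] at h1
      exact ZPR.Types_block hg hx (hf d) h1
  · push Not at hc
    refine Or.inl ?_
    have hsome : ∀ d : Fin n, ∃ b, block d = some b := by
      intro d
      rcases hbd : block d with _ | b
      · exact absurd (ZPR.Types_cm hs hx hbd) (hc d)
      · exact ⟨b, rfl⟩
    choose f hf using hsome
    have hpos : 0 < r := by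
      rcases Nat.eq_zero_or_pos r with h0 | h0
      · subst h0
        exact (f ⟨0, by omega⟩).elim0
      · exact h0
    obtain ⟨b, hb1⟩ := Fintype.exists_lt_card_fiber_of_mul_lt_card (n := k) f (by
      simp only [Fintype.card_fin]
      rw [mul_comm]
      exact hr)
    obtain ⟨S, hS, hcS⟩ := Finset.exists_subset_card_eq (Nat.succ_le_of_lt hb1)
    refine ⟨fun a => S.equivFinOfCardEq hcS |>.symm a, ?_, fun a => ncm_iff.mpr (hc _), ?_⟩
    · intro a a' haa
      exact (S.equivFinOfCardEq hcS).symm.injective (Subtype.ext haa)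
    · intro a a'
      have h1 : ∀ a, block ((S.equivFinOfCardEq hcS).symm a).1 = some b := by
        intro a
        have h2 := hS ((S.equivFinOfCardEq hcS).symm a).2
        rw [Finset.mem_filter] at h2
        rw [hf, h2.2]
      exact ZPR.Types_block hg hx (h1 a) (h1 a')

/-- the points of `V` on special subvarieties of dimension `< n / k` are finitely many -/
theorem low_v (h : Crv V) (hC : CMAll) (halg : ∀ x : ℂ, IsCMVal x → IsAlgebraic ℚ x) {k : ℕ}
    (hk : 2 ≤ k) (hn : 2 ≤ n)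
    (h5 : ∀ i : Fin (k + 1) → Fin n, Function.Injective i →
      {x ∈ V | (∀ a, NCM (x (i a))) ∧ ∀ a b, HeckeRel (x (i a)) (x (i b))}.Finite) :
    {x ∈ V | ∃ Z, Pool.Agent.Hhelper14.ZPL.IsSpecial Z ∧ x ∈ Z ∧
      (k : WithBot ℕ∞) * Pool.Agent.Hhelper14.ZPL.dim Z < n}.Finite := by
  classical
  have f1 : (⋃ i : {i : Fin (k + 1) → Fin n // Function.Injective i},
      {x ∈ V | (∀ a, NCM (x (i.1 a))) ∧ ∀ a b, HeckeRel (x (i.1 a)) (x (i.1 b))}).Finite :=
    Set.finite_iUnion fun i => h5 i.1 i.2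
  have f3 : (⋃ i : {i : Fin 3 → Fin n // Function.Injective i},
      {x ∈ V | NCM (x (i.1 0)) ∧ NCM (x (i.1 1)) ∧ HeckeRel (x (i.1 0)) (x (i.1 1)) ∧
        IsCMVal (x (i.1 2))}).Finite :=
    Set.finite_iUnion fun i => T3_v h hC i.1 i.2
  have f4 : (⋃ i : {i : Fin 2 → Fin n // Function.Injective i},
      {x ∈ V | IsCMVal (x (i.1 0)) ∧ IsCMVal (x (i.1 1))}).Finite :=
    Set.finite_iUnion fun i => T4_v h hC halg i.1 i.2
  refine (f1.union (f3.union f4)).subset ?_
  rintro x ⟨hxV, Z, hZ, hxZ, hd⟩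
  rcases typ_low hk hn hZ hd hxZ with ⟨i, hi, h'⟩ | ⟨i, hi, h'⟩ | ⟨i, hi, h'⟩
  · exact Or.inl (Set.mem_iUnion.mpr ⟨⟨i, hi⟩, hxV, h'⟩)
  · exact Or.inr (Or.inl (Set.mem_iUnion.mpr ⟨⟨i, hi⟩, hxV, h'⟩))
  · exact Or.inr (Or.inr (Set.mem_iUnion.mpr ⟨⟨i, hi⟩, hxV, h'⟩))

private theorem ne_univ_of_low {k : ℕ} (hk : 2 ≤ k) (hn : 2 ≤ n) {Z : Set (Fin n → ℂ)}
    (hd : (k : WithBot ℕ∞) * Pool.Agent.Hhelper14.ZPL.dim Z < n) : Z ≠ Set.univ := by
  rintro rfl
  rw [dim_univ, Fintype.card_fin] at hd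
  have h2 : k * n < n := by exact_mod_cast hd
  have h3 : 2 * n ≤ k * n := Nat.mul_le_mul_right _ hk
  omega

/-- **the Zilber-Pink statement for the special subvarieties of dimension `< n / k`** -/
theorem low_main (hV : Pool.Agent.Hhelper14.ZPL.IsIrredClosed V) (hVk : KClosed V)
    (hdim : Pool.Agent.Hhelper14.ZPL.dim V = 1) (hnc : ∀ (i : Fin n) (c : ℂ), ∃ x ∈ V, x i ≠ c)
    (hC : CMAll) (halg : ∀ x : ℂ, IsCMVal x → IsAlgebraic ℚ x) {k : ℕ} (hk : 2 ≤ k) (hn : 2 ≤ n)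
    (h5 : Crv V → ∀ i : Fin (k + 1) → Fin n, Function.Injective i →
      {x ∈ V | (∀ a, NCM (x (i a))) ∧ ∀ a b, HeckeRel (x (i a)) (x (i b))}.Finite) :
    ∃ S : Set (Set (Fin n → ℂ)), S.Finite ∧
      (∀ T ∈ S, Pool.Agent.Hhelper14.ZP.IsSpecial T ∧ T ≠ Set.univ) ∧
      ∀ Z, Pool.Agent.Hhelper14.ZP.IsSpecial Z →
        (k : WithBot ℕ∞) * Pool.Agent.Hhelper14.ZP.dim Z < n →
          ∀ C, Pool.Agent.Hhelper14.ZP.IsComponent C (V ∩ Z) → ∃ T ∈ S, C ⊆ T := by
  classical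
  by_cases h0 : ∃ T₀ : Set (Fin n → ℂ), Pool.Agent.Hhelper14.ZPL.IsSpecial T₀ ∧ T₀ ≠ Set.univ ∧ V ⊆ T₀
  · obtain ⟨T₀, hT, hne, hVT⟩ := h0
    refine ⟨{T₀}, Set.finite_singleton _, ?_, ?_⟩
    · intro T hTT
      rw [Set.mem_singleton_iff] at hTT
      rw [hTT]
      exact ⟨hT, hne⟩
    · intro Z _ _ C hC
      exact ⟨T₀, rfl, fun x hx => hVT (hC.2.1 hx).1⟩
  · have hm : NoMod V := by
      intro a b hab g hg
      by_contra hcon
      push Not at hcon
      exact h0 (sub_of_mod hab g hg hcon)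
    have hcrv : Crv V := ⟨hV, hVk, hdim, hnc, hm⟩
    set A : Set (Fin n → ℂ) := {x ∈ V | ∃ Z, Pool.Agent.Hhelper14.ZPL.IsSpecial Z ∧ x ∈ Z ∧
      (k : WithBot ℕ∞) * Pool.Agent.Hhelper14.ZPL.dim Z < n} with hA
    have hfin : A.Finite := low_v hcrv hC halg hk hn (h5 hcrv)
    have hch : ∀ x : A, ∃ Z, Pool.Agent.Hhelper14.ZPL.IsSpecial Z ∧ x.1 ∈ Z ∧
        (k : WithBot ℕ∞) * Pool.Agent.Hhelper14.ZPL.dim Z < n := fun x => x.2.2
    choose Z hZs hxZ hZd using hch
    have hfin' : Finite A := hfin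
    refine ⟨Set.range Z, Set.finite_range Z, ?_, ?_⟩
    · rintro _ ⟨x, rfl⟩
      exact ⟨hZs x, ne_univ_of_low hk hn (hZd x)⟩
    · intro Y hY hYd C hC
      have hY' : Pool.Agent.Hhelper14.ZPL.IsSpecial Y := hY
      have hYd' : (k : WithBot ℕ∞) * Pool.Agent.Hhelper14.ZPL.dim Y < n := hYd
      have hC' : Pool.Agent.Hhelper14.ZPL.IsIrredClosed C := hC.1
      obtain ⟨c, hc⟩ := dim_eq_nat hC'
      have hCV : C ⊆ V := fun x hx => (hC.2.1 hx).1
      have hCY : C ⊆ Y := fun x hx => (hC.2.1 hx).2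
      have h4 : Pool.Agent.Hhelper14.ZPL.dim C ≤ Pool.Agent.Hhelper14.ZPL.dim V :=
        Pool.Agent.Hhelper14.ZPL.dim_mono hCV
      rw [hc, hdim] at h4
      have h5' : c ≤ 1 := by exact_mod_cast h4
      by_cases hc1 : c = 1
      · exfalso
        have h6 : C = V := by
          refine eq_of_dim_le hC' hV hCV ?_
          rw [hdim, hc, hc1]
          exact le_rfl
        exact h0 ⟨Y, hY', ne_univ_of_low hk hn hYd', h6 ▸ hCY⟩
      · have hc0 : c = 0 := by omega
        obtain ⟨x, hx⟩ := irred_nonempty hC'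
        have hxA : x ∈ A := ⟨hCV hx, Y, hY', hCY hx, hYd'⟩
        refine ⟨Z ⟨x, hxA⟩, ⟨_, rfl⟩, fun y hy => ?_⟩
        by_cases hxy : x = y
        · rw [← hxy]
          exact hxZ ⟨x, hxA⟩
        · exfalso
          have h9 := one_le_dim hC' hx hy hxy
          rw [hc, hc0] at h9
          have h10 : 1 ≤ 0 := by exact_mod_cast h9
          omega

end Pool.Agent.LGO.ZV
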