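import Mathlib
import Pool.Agent.LGO.ZV.Flag
import Pool.Agent.LGO.End.F

/-!
# LGO/ZV: every curve in `Y(1)³`, outside a sparse set of degrees

`FinAtypicalOff V X`: finitely many proper special subvarieties contain all atypical intersections of `V` with special
subvarieties which are not points of `X`.  `sparse_y3`: for every curve in `Y(1)³` which avoids `(∞, ∞, ∞)`, with `X` the
set of the points with three isogenous coordinates for which the degree of the isogeny between two fixed coordinates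
lies in a set `S` with at most `C` elements in every interval `[X, exp (X ^ (1/C))]` (no condition at infinity).
`off_y3` is the assembly: it uses only the finiteness of the isogenous triples outside `X`.
-/

namespace Pool.Agent.LGO.ZV

open UpperHalfPlane MvPolynomial Pool.Agent.Hhelper14.ZP Pool.Agent.Hhelper14.ZPL Pool.Agent.LGO
  Pool.Agent.LGO.ZF Pool.Agent.LGO.ZG Pool.Agent.LGO.PWG Pool.Agent.ZPE

/-- Finitely many proper special subvarieties contain all atypical intersections of `V` with special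
subvarieties, except those which are points of `X`. -/
def FinAtypicalOff {n : ℕ} (V X : Set (Fin n → ℂ)) : Prop :=
  ∃ S : Set (Set (Fin n → ℂ)), S.Finite ∧
    (∀ T ∈ S, Pool.Agent.Hhelper14.ZP.IsSpecial T ∧ T ≠ Set.univ) ∧
    ∀ Z, Pool.Agent.Hhelper14.ZP.IsSpecial Z → ∀ C, Pool.Agent.Hhelper14.ZP.IsComponent C (V ∩ Z) →
      Pool.Agent.Hhelper14.ZP.dim Z + Pool.Agent.Hhelper14.ZP.dim V <
        Pool.Agent.Hhelper14.ZP.dim C + n →
      (∃ T ∈ S, C ⊆ T) ∨ ∃ x ∈ X, C = {x}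

theorem FinAtypicalOff.of_fin {n : ℕ} {V : Set (Fin n → ℂ)} (X : Set (Fin n → ℂ))
    (h : FinAtypical V) : FinAtypicalOff V X := by
  obtain ⟨S, h1, h2, h3⟩ := h
  exact ⟨S, h1, h2, fun Z hZ C hC hd => Or.inl (h3 Z hZ C hC hd)⟩

theorem FinAtypicalOff.fin {n : ℕ} {V : Set (Fin n → ℂ)} (h : FinAtypicalOff V ∅) :
    FinAtypical V := by
  obtain ⟨S, h1, h2, h3⟩ := h
  refine ⟨S, h1, h2, fun Z hZ C hC hd => ?_⟩
  rcases h3 Z hZ C hC hd with h | ⟨x, hx, -⟩
  · exact h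
  · exact absurd hx (Set.notMem_empty x)

/-- as `ZF.crit`, with exceptional points -/
theorem crit_off {n : ℕ} {V X : Set (Fin n → ℂ)}
    (hV : Pool.Agent.Hhelper14.ZPL.IsIrredClosed V)
    (hdim : Pool.Agent.Hhelper14.ZPL.dim V = 1) (h : (Atyp V \ X).Finite) : FinAtypicalOff V X := by
  classical
  by_cases h0 : ∃ T₀ : Set (Fin n → ℂ), Pool.Agent.Hhelper14.ZPL.IsSpecial T₀ ∧ T₀ ≠ Set.univ ∧ V ⊆ T₀
  · obtain ⟨T₀, hT, hne, hVT⟩ := h0
    refine ⟨{T₀}, Set.finite_singleton _, ?_, ?_⟩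
    · intro T hTT
      rw [Set.mem_singleton_iff] at hTT
      rw [hTT]
      exact ⟨hT, hne⟩
    · intro Z hZ C hC hd
      exact Or.inl ⟨T₀, rfl, fun x hx => hVT (hC.2.1 hx).1⟩
  · have hch : ∀ x : (Atyp V \ X : Set (Fin n → ℂ)), ∃ Z, Pool.Agent.Hhelper14.ZPL.IsSpecial Z ∧
        x.1 ∈ Z ∧ Pool.Agent.Hhelper14.ZPL.dim Z + 2 ≤ (n : WithBot ℕ∞) := fun x => x.2.1.2
    choose Z hZs hxZ hZd using hch
    have hfin : Finite (Atyp V \ X : Set (Fin n → ℂ)) := h
    refine ⟨Set.range Z, Set.finite_range Z, ?_, ?_⟩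
    · rintro _ ⟨x, rfl⟩
      refine ⟨hZs x, ?_⟩
      intro hu
      have h1 := hZd x
      rw [hu, dim_univ, Fintype.card_fin] at h1
      have h2 : n + 2 ≤ n := by exact_mod_cast h1
      omega
    · intro Y hY C hC hd
      have hY' : Pool.Agent.Hhelper14.ZPL.IsSpecial Y := hY
      have hC' : Pool.Agent.Hhelper14.ZPL.IsIrredClosed C := hC.1
      obtain ⟨c, hc⟩ := dim_eq_nat hC'
      obtain ⟨r, block, g, s, hb, hg, hs, hYe⟩ := isSpecial_iff.mp hY'
      have h1 : Pool.Agent.Hhelper14.ZPL.dim Y = r := by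
        rw [hYe, dim_spSet hb hg, Fintype.card_fin]
      have h2 : Pool.Agent.Hhelper14.ZPL.dim Y + Pool.Agent.Hhelper14.ZPL.dim V <
        Pool.Agent.Hhelper14.ZPL.dim C + n := hd
      rw [h1, hdim, hc] at h2
      have h3 : r + 1 < c + n := by exact_mod_cast h2
      have hCV : C ⊆ V := fun x hx => (hC.2.1 hx).1
      have hCY : C ⊆ Y := fun x hx => (hC.2.1 hx).2
      have h4 : Pool.Agent.Hhelper14.ZPL.dim C ≤ Pool.Agent.Hhelper14.ZPL.dim V :=
        Pool.Agent.Hhelper14.ZPL.dim_mono hCV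
      have h4' := h4
      rw [hc, hdim] at h4'
      have h5 : c ≤ 1 := by exact_mod_cast h4'
      by_cases hc1 : c = 1
      · exfalso
        have h6 : C = V := by
          refine eq_of_dim_le hC' hV hCV ?_
          rw [hdim, hc, hc1]
          exact le_rfl
        have h7 : Y ≠ Set.univ := by
          intro hu
          rw [hu, dim_univ, Fintype.card_fin] at h1
          have h8 : n = r := by exact_mod_cast h1
          omega
        exact h0 ⟨Y, hY, h7, h6 ▸ hCY⟩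
      · have hc0 : c = 0 := by omega
        obtain ⟨x, hx⟩ := irred_nonempty hC'
        have hCx : C = {x} := by
          refine Set.Subset.antisymm (fun y hy => ?_) (Set.singleton_subset_iff.mpr hx)
          by_contra hxy
          have h9 := one_le_dim hC' hx hy (fun hh => hxy hh.symm)
          rw [hc, hc0] at h9
          have h10 : 1 ≤ 0 := by exact_mod_cast h9
          omega
        have hxA : x ∈ Atyp V := by
          refine ⟨hCV hx, Y, hY, hCY hx, ?_⟩
          rw [h1]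
          have h8 : r + 2 ≤ n := by omega
          exact_mod_cast h8
        by_cases hxX : x ∈ X
        · exact Or.inr ⟨x, hxX, hCx⟩
        · refine Or.inl ⟨Z ⟨x, hxA, hxX⟩, ⟨_, rfl⟩, ?_⟩
          rw [hCx, Set.singleton_subset_iff]
          exact hxZ ⟨x, hxA, hxX⟩

/-- the isogenous triples (not CM) with `mdeg (x b) (x c) ∈ S` -/
def TripIn (S : Set ℕ) (b c : Fin 3) : Set (Fin 3 → ℂ) :=
  {x | (∀ a, NCM (x a)) ∧ (∀ a a', HeckeRel (x a) (x a')) ∧ mdeg (x b) (x c) ∈ S}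

/-- **assembly**: if the isogenous triples on `V` with `mdeg (x b) (x c) ∉ S` are finitely many -/
theorem off_y3 {V : Set (Fin 3 → ℂ)} (h : Crv V) (hC : CMAll)
    (halg : ∀ x : ℂ, IsCMVal x → IsAlgebraic ℚ x) {b c : Fin 3} {S : Set ℕ}
    (h1 : {x ∈ V | (∀ τ : ℍ, jInv τ = x 0 → ¬ IsCM τ) ∧ HeckeRel (x 0) (x 1) ∧
      HeckeRel (x 0) (x 2) ∧ mdeg (x b) (x c) ∉ S}.Finite) :
    FinAtypicalOff V (TripIn S b c) := by
  classical
  have f3 : (⋃ i : {i : Fin 3 → Fin 3 // Function.Injective i},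
      {x ∈ V | NCM (x (i.1 0)) ∧ NCM (x (i.1 1)) ∧ HeckeRel (x (i.1 0)) (x (i.1 1)) ∧
        IsCMVal (x (i.1 2))}).Finite :=
    Set.finite_iUnion fun i => T3_v h hC i.1 i.2
  have f4 : (⋃ i : {i : Fin 2 → Fin 3 // Function.Injective i},
      {x ∈ V | IsCMVal (x (i.1 0)) ∧ IsCMVal (x (i.1 1))}).Finite :=
    Set.finite_iUnion fun i => T4_v h hC halg i.1 i.2
  refine crit_off h.irr h.dim ((h1.union (f3.union f4)).subset ?_)
  rintro x ⟨⟨hxV, Z, hZ, hxZ, hd⟩, hxX⟩
  rcases typ hZ hd hxZ with ⟨i, hi, h3, h4, h5⟩ | ⟨i, hi, -⟩ | ⟨i, hi, h'⟩ | ⟨i, hi, h'⟩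
  · left
    have hsur : Function.Surjective i := Finite.injective_iff_surjective.mp hi
    have hall : ∀ a, HeckeRel (x (i 0)) (x (i a)) := by
      intro a
      fin_cases a
      · exact HeckeRel.refl' _
      · exact h4
      · exact h5
    have hall' : ∀ a b, HeckeRel (x a) (x b) := by
      intro a b
      obtain ⟨a', rfl⟩ := hsur a
      obtain ⟨b', rfl⟩ := hsur b
      exact HeckeRel.trans' (HeckeRel.symm' (hall a')) (hall b')
    have hncm : ∀ a, NCM (x a) := by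
      intro a
      obtain ⟨a', rfl⟩ := hsur a
      exact h3 a'
    refine ⟨hxV, ?_, hall' 0 1, hall' 0 2, fun hm => hxX ⟨hncm, hall', hm⟩⟩
    have h6 := hncm 0
    rw [ncm_iff] at h6
    intro τ hτ hcm
    exact h6 ⟨τ, hcm, hτ.symm⟩
  · exfalso
    have h3 := Fintype.card_le_of_injective i hi
    simp at h3
  · exact Or.inr (Or.inl (Set.mem_iUnion.mpr ⟨⟨i, hi⟩, hxV, h'⟩))
  · exact Or.inr (Or.inr (Set.mem_iUnion.mpr ⟨⟨i, hi⟩, hxV, h'⟩))

theorem sparse_empty : Sparse 1 (∅ : Set ℕ) := by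
  intro X _
  simp

/-- **Q1 for every curve in `Y(1)³` which avoids `(∞, ∞, ∞)`, outside a sparse set of degrees** -/
theorem sparse_y3 {V : Set (Fin 3 → ℂ)} (hV : Pool.Agent.Hhelper14.ZPL.IsIrredClosed V)
    (hVk : KClosed V) (hdim : Pool.Agent.Hhelper14.ZPL.dim V = 1)
    (hnc : ∀ (i : Fin 3) (c : ℂ), ∃ x ∈ V, x i ≠ c)
    (hC : CMAll) (halg : ∀ x : ℂ, IsCMVal x → IsAlgebraic ℚ x)
    {Q : MvPolynomial (Fin 3) ℂ} (hQ0 : constantCoeff Q ≠ 0)
    (hQ : ∀ x ∈ V, (∀ a, x a ≠ 0) → eval (fun a => (x a)⁻¹) Q = 0) :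
    ∃ b c : Fin 3, b ≠ c ∧ ∃ (C : ℕ) (S : Set ℕ), 0 < C ∧ Sparse C S ∧
      FinAtypicalOff V (TripIn S b c) := by
  by_cases hm : NoMod V
  · have h : Crv V := ⟨hV, hVk, hdim, hnc, hm⟩
    obtain ⟨b, c, hbc, C, S, hC0, hS, hfin⟩ := fin_sparse hV hVk hdim id hnc h.nomod hQ0 hQ
    exact ⟨b, c, hbc, C, S, hC0, hS, off_y3 h hC halg hfin⟩
  · simp only [NoMod] at hm
    push Not at hm
    obtain ⟨a, b, hab, g, hg, hx⟩ := hm
    exact ⟨0, 1, by decide, 1, ∅, one_pos, sparse_empty, FinAtypicalOff.of_fin _ (fin_of_mod hab g hg hx)⟩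

end Pool.Agent.LGO.ZV
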